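import Mathlib

/-!
# MP_6429ad_ag: graph curves and their secant varieties

Definitions.  Everything projective is described by its affine cone in `K ^ r`.
-/

set_option autoImplicit false

namespace Pool.Agent.N608.SG

open MvPolynomial

universe u

/-- An edge label: `one i` stands for `e_i` and `diff j k` for `e_j - e_k`. -/
inductive Lab (r : ℕ) where
  | one (i : Fin r)
  | diff (j k : Fin r)
  deriving DecidableEq

/-- The index `i` occurs in the label. -/
def Mentions {r : ℕ} : Lab r → Fin r → Prop
  | .one j, i => j = i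
  | .diff j k, i => j = i ∨ k = i

/-- Adjacency in the graph `G~` obtained from `G` by attaching a loop to every vertex of
degree one. -/
def TAdj {d : ℕ} (G : SimpleGraph (Fin d)) [DecidableRel G.Adj] (u v : Fin d) : Prop :=
  G.Adj u v ∨ (u = v ∧ G.degree u = 1)

/-- The graphs of the problem. -/
structure Admissible {d : ℕ} (G : SimpleGraph (Fin d)) [DecidableRel G.Adj] : Prop where
  connected : G.Connected
  triangleFree : ∀ u v w, G.Adj u v → G.Adj v w → ¬ G.Adj u w
  degree_le : ∀ v, G.degree v ≤ 3
  exists_lt : ∃ v, G.degree v < 3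
  far : ∀ u v, u ≠ v → G.degree u = 3 → G.degree v = 3 → ∀ p : G.Walk u v, p.IsPath →
    3 ≤ p.length

/-- The labellings of the problem; `r = d - g + 1 = 2 d - m` is the number of variables. -/
structure Labelling {d r : ℕ} (G : SimpleGraph (Fin d)) [DecidableRel G.Adj]
    (lab : Fin d → Fin d → Lab r) : Prop where
  num : r + G.edgeFinset.card = 2 * d
  symm : ∀ u v, lab u v = lab v u
  /-- at a vertex of degree three the labels are `e_j`, `e_k`, `e_j - e_k` -/
  three : ∀ v, G.degree v = 3 → ∃ (a b c : Fin d) (j k : Fin r), j ≠ k ∧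
    G.neighborFinset v = {a, b, c} ∧ lab v a = .one j ∧ lab v b = .one k ∧ lab v c = .diff j k
  /-- every other edge has a label `e_i` -/
  other : ∀ u v, TAdj G u v → G.degree u ≠ 3 → G.degree v ≠ 3 → ∃ i, lab u v = .one i
  /-- every `e_i` is the label of exactly one edge -/
  uniq : ∀ i, ∃ u v, TAdj G u v ∧ lab u v = .one i ∧
    ∀ u' v', TAdj G u' v' → lab u' v' = .one i → (u' = u ∧ v' = v) ∨ (u' = v ∧ v' = u)

/-- The (cone over the) line `L_v`. All coordinates whose index does not occur in a label at `v`
vanish; if `v` does not have degree three and has an edge labelled `e_j - e_k`, then moreover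
`x_j = x_k`. -/
def line (K : Type u) [Field K] {d r : ℕ} (G : SimpleGraph (Fin d)) [DecidableRel G.Adj]
    (lab : Fin d → Fin d → Lab r) (v : Fin d) : Set (Fin r → K) :=
  {x | (∀ i, (∀ w, TAdj G v w → ¬ Mentions (lab v w) i) → x i = 0) ∧
    (G.degree v ≠ 3 → ∀ w, TAdj G v w → ∀ j k, lab v w = .diff j k → x j = x k)}

/-- The (cone over the) graph curve `C_G`. -/
def curve (K : Type u) [Field K] {d r : ℕ} (G : SimpleGraph (Fin d)) [DecidableRel G.Adj]
    (lab : Fin d → Fin d → Lab r) : Set (Fin r → K) :=
  ⋃ v, line K G lab v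

/-- The vanishing ideal of a set of points. -/
def vI {K : Type u} [Field K] {r : ℕ} (X : Set (Fin r → K)) : Ideal (MvPolynomial (Fin r) K) where
  carrier := {p | ∀ x ∈ X, eval x p = 0}
  add_mem' := by
    intro a b ha hb x hx
    rw [map_add, ha x hx, hb x hx, add_zero]
  zero_mem' := by
    intro x _
    exact map_zero _
  smul_mem' := by
    intro c a ha x hx
    rw [smul_eq_mul, map_mul, ha x hx, mul_zero]

/-- The linear form with coefficient vector `c`. -/
noncomputable def lin {K : Type u} [Field K] {r : ℕ} (c : Fin r → K) : MvPolynomial (Fin r) K :=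
  ∑ i, C (c i) * X i

/-- The projective `k`-plane of the linear subspace `U` meets the projective variety with cone `X`
in a zero-dimensional scheme of length at least `k + 1`: the plane has dimension `k`, some linear
form `h` has no zero on the intersection, and the intersection, which is the affine scheme
`Spec (S / (I(X) + I(U) + (h - 1)))`, has length at least `k + 1`. -/
structure IsSecant {K : Type u} [Field K] {r : ℕ} (X : Set (Fin r → K)) (k : ℕ)
    (U : Submodule K (Fin r → K)) : Prop where
  dim : Module.finrank K U = k + 1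
  length : ∃ h : Fin r → K, (∀ z ∈ U, z ∈ X → z ≠ 0 → ∑ i, h i * z i ≠ 0) ∧
    ((k + 1 : ℕ) : Cardinal.{u}) ≤ Module.rank K (MvPolynomial (Fin r) K ⧸
      (vI X ⊔ vI (U : Set (Fin r → K)) ⊔ Ideal.span {lin h - 1}))

/-- The vanishing ideal of the secant variety `Σ_k`. -/
def secI {K : Type u} [Field K] {r : ℕ} (X : Set (Fin r → K)) (k : ℕ) :
    Ideal (MvPolynomial (Fin r) K) :=
  vI {z | ∃ U : Submodule K (Fin r → K), IsSecant X k U ∧ z ∈ U}

/-- A product of linear forms. -/
def IsProd {K : Type u} [Field K] {r : ℕ} (g : MvPolynomial (Fin r) K) : Prop :=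
  ∃ l : List (Fin r → K), g = (l.map lin).prod

/-- The ideal is generated by products of linear forms. -/
def GenByProducts {K : Type u} [Field K] {r : ℕ} (I : Ideal (MvPolynomial (Fin r) K)) : Prop :=
  ∃ T : Set (MvPolynomial (Fin r) K), Ideal.span T = I ∧ ∀ g ∈ T, IsProd g

/-- The edges of the theta graph: the vertices `0` and `1` are joined by the paths
`0, 2, 3, 4, 1` and `0, 5, 6, 7, 1` and `0, 8, 9, 10, 1`. -/
def edl : List (Fin 11 × Fin 11) :=
  [(0, 2), (0, 5), (0, 8), (2, 3), (3, 4), (4, 1), (5, 6), (6, 7), (7, 1), (8, 9), (9, 10), (10, 1)]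

/-- The theta graph with three paths of four edges; it has `11` vertices and `12` edges. -/
def TG : SimpleGraph (Fin 11) where
  Adj u v := (u, v) ∈ edl ∨ (v, u) ∈ edl
  symm := ⟨fun _ _ h => h.symm⟩
  loopless := ⟨by decide⟩

instance : DecidableRel TG.Adj := fun u v =>
  inferInstanceAs (Decidable ((u, v) ∈ edl ∨ (v, u) ∈ edl))

/-- The labels, for one orientation of every edge. -/
def tl0 : List ((Fin 11 × Fin 11) × Lab 10) :=
  [((0, 2), .one 0), ((0, 5), .one 1), ((0, 8), .diff 0 1),
   ((4, 1), .one 2), ((7, 1), .one 3), ((10, 1), .diff 2 3),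
   ((2, 3), .one 4), ((3, 4), .one 5), ((5, 6), .one 6), ((6, 7), .one 7),
   ((8, 9), .one 8), ((9, 10), .one 9)]

/-- The label of the edge `u v` (and `e_0` if `u v` is not an edge). -/
def tlab (u v : Fin 11) : Lab 10 :=
  ((tl0.lookup (min u v, max u v)).getD ((tl0.lookup (max u v, min u v)).getD (.one 0)))

lemma mem_vI {K : Type u} [Field K] {r : ℕ} {X : Set (Fin r → K)} {p : MvPolynomial (Fin r) K} :
    p ∈ vI X ↔ ∀ x ∈ X, eval x p = 0 := Iff.rfl

lemma eval_lin {K : Type u} [Field K] {r : ℕ} (c x : Fin r → K) :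
    eval x (lin c) = ∑ i, c i * x i := by
  simp [lin]

end Pool.Agent.N608.SG
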