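import Pool.Agent.N608.SG.Defs

/-!
The theta graph with three paths of length four.
-/

set_option autoImplicit false
set_option linter.unusedSimpArgs false

namespace Pool.Agent.N608.SG

open MvPolynomial

universe u

lemma deg_eq : ∀ v, TG.degree v = if v = 0 ∨ v = 1 then 3 else 2 := by decide

lemma tadj_iff (u v : Fin 11) : TAdj TG u v ↔ TG.Adj u v := by
  constructor
  · rintro (h | ⟨-, h⟩)
    · exact h
    · exfalso
      rw [deg_eq] at h
      split_ifs at h
      all_goals omega
  · exact Or.inl

lemma conn0 : ∀ v, TG.Reachable 0 v := by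
  have a (u v : Fin 11) (h : TG.Adj u v) : TG.Reachable u v := h.reachable
  have h2 := a 0 2 (by decide)
  have h3 := h2.trans (a 2 3 (by decide))
  have h4 := h3.trans (a 3 4 (by decide))
  have h1 := h4.trans (a 4 1 (by decide))
  have h5 := a 0 5 (by decide)
  have h6 := h5.trans (a 5 6 (by decide))
  have h7 := h6.trans (a 6 7 (by decide))
  have h8 := a 0 8 (by decide)
  have h9 := h8.trans (a 8 9 (by decide))
  have h10 := h9.trans (a 9 10 (by decide))
  intro v
  fin_cases v
  · exact SimpleGraph.Reachable.refl _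
  all_goals assumption

lemma admissible : Admissible TG where
  connected := by
    rw [SimpleGraph.connected_iff]
    exact ⟨fun u v => (conn0 u).symm.trans (conn0 v), ⟨0⟩⟩
  triangleFree := by decide
  degree_le := by
    intro v
    rw [deg_eq]
    split_ifs <;> omega
  exists_lt := ⟨2, by rw [deg_eq]; decide⟩
  far := by
    intro u v huv hu hv p hp
    have hd : ∀ u, TG.degree u = 3 → u = 0 ∨ u = 1 := by
      intro u h
      rw [deg_eq] at h
      split_ifs at h with h0
      · exact h0
      · omega
    have h1 : ¬ TG.Adj u v := by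
      rcases hd u hu with rfl | rfl <;> rcases hd v hv with rfl | rfl <;> decide
    have h2 : ∀ w, TG.Adj u w → ¬ TG.Adj w v := by
      rcases hd u hu with rfl | rfl <;> rcases hd v hv with rfl | rfl
      · exact absurd rfl huv
      · decide
      · decide
      · exact absurd rfl huv
    cases p with
    | nil => exact absurd rfl huv
    | cons a q =>
      cases q with
      | nil => exact absurd a h1
      | cons b q' =>
        cases q' with
        | nil => exact absurd b (h2 _ a)
        | cons c q'' =>
          simp only [SimpleGraph.Walk.length_cons]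
          omega

lemma labelling : Labelling TG tlab where
  num := by decide
  symm := by
    intro u v
    rw [tlab, tlab, min_comm, max_comm]
  three := by
    intro v hv
    have hd : v = 0 ∨ v = 1 := by
      rw [deg_eq] at hv
      split_ifs at hv with h0
      · exact h0
      · omega
    rcases hd with rfl | rfl
    · exact ⟨2, 5, 8, 0, 1, by decide, by decide, by decide, by decide, by decide⟩
    · exact ⟨4, 7, 10, 2, 3, by decide, by decide, by decide, by decide, by decide⟩
  other := by
    intro u v h hu hv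
    rw [tadj_iff] at h
    rw [deg_eq] at hu hv
    revert u v
    decide
  uniq := by
    have h : ∀ i, ∃ u v, TG.Adj u v ∧ tlab u v = .one i ∧
      ∀ u' v', TG.Adj u' v' → tlab u' v' = .one i → (u' = u ∧ v' = v) ∨ (u' = v ∧ v' = u) := by
      intro i
      fin_cases i
      · exact ⟨0, 2, by decide, by decide, by decide⟩
      · exact ⟨0, 5, by decide, by decide, by decide⟩
      · exact ⟨4, 1, by decide, by decide, by decide⟩
      · exact ⟨7, 1, by decide, by decide, by decide⟩
      · exact ⟨2, 3, by decide, by decide, by decide⟩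
      · exact ⟨3, 4, by decide, by decide, by decide⟩
      · exact ⟨5, 6, by decide, by decide, by decide⟩
      · exact ⟨6, 7, by decide, by decide, by decide⟩
      · exact ⟨8, 9, by decide, by decide, by decide⟩
      · exact ⟨9, 10, by decide, by decide, by decide⟩
    simpa only [tadj_iff] using h

/-- the indices of the coordinates that may be nonzero on the line -/
def sup : Fin 11 → List (Fin 10) :=
  ![[0, 1], [2, 3], [0, 4], [4, 5], [5, 2], [1, 6], [6, 7], [7, 3], [0, 1, 8], [8, 9], [9, 2, 3]]

instance (l : Lab 10) (i : Fin 10) : Decidable (Mentions l i) := by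
  cases l <;> simp only [Mentions] <;> infer_instance

lemma sup_iff : ∀ v i, (∀ w, TG.Adj v w → ¬ Mentions (tlab v w) i) ↔ i ∉ sup v := by decide

lemma mem_line (K : Type u) [Field K] (v : Fin 11) (x : Fin 10 → K) :
    x ∈ line K TG tlab v ↔ (∀ i, i ∉ sup v → x i = 0) ∧ (v = 8 → x 0 = x 1) ∧
      (v = 10 → x 2 = x 3) := by
  have h1 : (∀ i, (∀ w, TAdj TG v w → ¬ Mentions (tlab v w) i) → x i = 0) ↔
      (∀ i, i ∉ sup v → x i = 0) := by
    simp only [tadj_iff, sup_iff]
  have h2 : (TG.degree v ≠ 3 → ∀ w, TAdj TG v w → ∀ j k, tlab v w = .diff j k → x j = x k) ↔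
      (v = 8 → x 0 = x 1) ∧ (v = 10 → x 2 = x 3) := by
    simp only [tadj_iff]
    constructor
    · intro h
      constructor
      · rintro rfl
        exact h (by rw [deg_eq]; decide) 0 (by decide) 0 1 (by decide)
      · rintro rfl
        exact h (by rw [deg_eq]; decide) 1 (by decide) 2 3 (by decide)
    · rintro ⟨h8, h10⟩ hv w hw j k hjk
      have hd : ∀ v w j k, v ≠ 0 ∧ v ≠ 1 → TG.Adj v w → tlab v w = .diff j k →
        (v = 8 ∧ j = 0 ∧ k = 1) ∨ (v = 10 ∧ j = 2 ∧ k = 3) := by
        intro v w j k hv' hw' hl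
        have h0 : ∀ v w, v ≠ 0 ∧ v ≠ 1 → TG.Adj v w → (∃ i, tlab v w = .one i) ∨
          (v = 8 ∧ tlab v w = .diff 0 1) ∨ (v = 10 ∧ tlab v w = .diff 2 3) := by decide
        rcases h0 v w hv' hw' with ⟨i, h⟩ | ⟨h, h'⟩ | ⟨h, h'⟩
        · rw [hl] at h
          cases h
        · rw [hl] at h'
          injection h' with a b
          exact Or.inl ⟨h, a, b⟩
        · rw [hl] at h'
          injection h' with a b
          exact Or.inr ⟨h, a, b⟩
      have hv' : v ≠ 0 ∧ v ≠ 1 := by
        rw [deg_eq] at hv
        constructor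
        · rintro rfl
          exact hv (by decide)
        · rintro rfl
          exact hv (by decide)
      rcases hd v w j k hv' hw hjk with ⟨h, rfl, rfl⟩ | ⟨h, rfl, rfl⟩
      · exact h8 h
      · exact h10 h
  unfold line
  rw [Set.mem_ofPred_eq, h1, h2]

lemma mem_curve (K : Type u) [Field K] (x : Fin 10 → K) :
    x ∈ curve K TG tlab ↔ ∃ v, (∀ i, i ∉ sup v → x i = 0) ∧ (v = 8 → x 0 = x 1) ∧
      (v = 10 → x 2 = x 3) := by
  unfold curve
  rw [Set.mem_iUnion]
  simp only [mem_line]

lemma mul_zero_of {K : Type u} [Field K] {x : Fin 10 → K} (hx : x ∈ curve K TG tlab)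
    {e e' : Fin 10} (h : ∀ v, ¬ (e ∈ sup v ∧ e' ∈ sup v)) : x e * x e' = 0 := by
  obtain ⟨v, h1, -⟩ := (mem_curve K x).1 hx
  by_cases he : e ∈ sup v
  · rw [h1 e' (fun h' => h v ⟨he, h'⟩), mul_zero]
  · rw [h1 e he, zero_mul]

lemma mul8_of {K : Type u} [Field K] {x : Fin 10 → K} (hx : x ∈ curve K TG tlab) :
    x 8 * (x 0 - x 1) = 0 := by
  obtain ⟨v, h1, h2, -⟩ := (mem_curve K x).1 hx
  by_cases h8 : v = 8
  · rw [h2 h8, sub_self, mul_zero]
  · by_cases h9 : v = 9
    · subst h9
      rw [h1 0 (by decide), h1 1 (by decide), sub_self, mul_zero]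
    · have : 8 ∉ sup v := by
        clear h1 h2
        revert h8 h9
        revert v
        decide
      rw [h1 8 this, zero_mul]

lemma mul9_of {K : Type u} [Field K] {x : Fin 10 → K} (hx : x ∈ curve K TG tlab) :
    x 9 * (x 2 - x 3) = 0 := by
  obtain ⟨v, h1, -, h2⟩ := (mem_curve K x).1 hx
  by_cases h8 : v = 10
  · rw [h2 h8, sub_self, mul_zero]
  · by_cases h9 : v = 9
    · subst h9
      rw [h1 2 (by decide), h1 3 (by decide), sub_self, mul_zero]
    · have : 9 ∉ sup v := by
        clear h1 h2
        revert h8 h9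
        revert v
        decide
      rw [h1 9 this, zero_mul]

end Pool.Agent.N608.SG
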