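import Mathlib

/-!
Linear algebra for MP_6429ad_ag: symmetric matrices with the pattern of the theta graph.
-/

set_option autoImplicit false
set_option linter.unusedSimpArgs false
set_option linter.unusedSectionVars false

namespace Pool.Agent.N608.SG

universe u

variable {K : Type u} [Field K]

/-- coordinates: first block, second block, first and second middle label of the three paths -/
abbrev W (K : Type u) : Type u := (K × K) × (K × K) × (Fin 3 → K) × (Fin 3 → K)

/-- the three points of a block -/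
def pt (K : Type u) [Field K] : Fin 3 → K × K := ![(1, 0), (0, 1), (1, 1)]

/-- pairing -/
def pr (x y : K × K) : K := x.1 * y.1 + x.2 * y.2

lemma pt_ind {i j : Fin 3} (h : i ≠ j) {s t : K} (hs : s • pt K i + t • pt K j = 0) :
    s = 0 ∧ t = 0 := by
  have h1 := congrArg Prod.fst hs
  have h2 := congrArg Prod.snd hs
  fin_cases i <;> fin_cases j <;> simp_all [pt]

lemma pt_ne (i : Fin 3) : pt K i ≠ 0 := by
  intro h
  have h1 := congrArg Prod.fst h
  have h2 := congrArg Prod.snd h
  fin_cases i <;> simp_all [pt]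

lemma det_pt (i : Fin 3) (s t : K) :
    (s • pt K i).1 * (t • pt K i).2 - (s • pt K i).2 * (t • pt K i).1 = 0 := by
  simp only [Prod.smul_fst, Prod.smul_snd, smul_eq_mul]
  ring

lemma dep5 {V : Type u} [AddCommGroup V] [Module K V] (U : Submodule K V)
    (hU : Module.finrank K U = 4) {w1 w2 w3 w4 w5 : V} (h1 : w1 ∈ U) (h2 : w2 ∈ U) (h3 : w3 ∈ U)
    (h4 : w4 ∈ U) (h5 : w5 ∈ U)
    (H : ∀ a b c d e : K, a • w1 + b • w2 + c • w3 + d • w4 + e • w5 = 0 →
      a = 0 ∧ b = 0 ∧ c = 0 ∧ d = 0 ∧ e = 0) : False := by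
  have : FiniteDimensional K U := FiniteDimensional.of_finrank_pos (by omega)
  have hli : LinearIndependent K ![(⟨w1, h1⟩ : U), ⟨w2, h2⟩, ⟨w3, h3⟩, ⟨w4, h4⟩, ⟨w5, h5⟩] := by
    rw [Fintype.linearIndependent_iff]
    intro g hg
    have h6 : g 0 • w1 + g 1 • w2 + g 2 • w3 + g 3 • w4 + g 4 • w5 = 0 := by
      have h7 := congrArg (Subtype.val) hg
      simp only [Fin.sum_univ_five] at h7
      simpa using h7
    obtain ⟨e0, e1, e2, e3, e4⟩ := H _ _ _ _ _ h6
    intro i
    fin_cases i
    · exact e0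
    · exact e1
    · exact e2
    · exact e3
    · exact e4
  have h8 := hli.fintype_card_le_finrank
  rw [hU, Fintype.card_fin] at h8
  omega

section data

variable (al be ga mu nu : Fin 3 → K)

def ra (i : Fin 3) : W K := (mu i • pt K i, 0, Pi.single i (al i), Pi.single i (ga i))

def rb (i : Fin 3) : W K := (0, nu i • pt K i, Pi.single i (ga i), Pi.single i (be i))

def bl (A B C : K) (x : K × K) : K × K := (A * x.1 + B * x.2, B * x.1 + C * x.2)

def k1 (A B C : K) (x : K × K) : W K := (bl A B C x, 0, fun i => mu i * pr x (pt K i), 0)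

def k2 (A B C : K) (x : K × K) : W K := (0, bl A B C x, 0, fun i => nu i * pr x (pt K i))

end data

variable {al be ga mu nu : Fin 3 → K}

lemma W_eq {x y : W K} (h1 : x.1 = y.1) (h2 : x.2.1 = y.2.1) (h3 : x.2.2.1 = y.2.2.1)
    (h4 : x.2.2.2 = y.2.2.2) : x = y := Prod.ext h1 (Prod.ext h2 (Prod.ext h3 h4))

lemma comps {x : W K} (h : x = 0) : x.1 = 0 ∧ x.2.1 = 0 ∧ (∀ i, x.2.2.1 i = 0) ∧
    ∀ i, x.2.2.2 i = 0 := by
  subst h
  exact ⟨rfl, rfl, fun _ => rfl, fun _ => rfl⟩

lemma third (i j : Fin 3) : ∃ l : Fin 3, l ≠ i ∧ l ≠ j := by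
  revert i j
  decide

lemma split_pair {i j : Fin 3} (hij : i ≠ j) {s t s' t' : K}
    (h : s • ra al ga mu i + t • rb be ga nu i + s' • ra al ga mu j + t' • rb be ga nu j = 0) :
    s • ra al ga mu i + t • rb be ga nu i = 0 ∧ s' • ra al ga mu j + t' • rb be ga nu j = 0 := by
  obtain ⟨h1, h2, h3, h4⟩ := comps h
  simp only [ra, rb, Prod.fst_add, Prod.snd_add, Prod.smul_fst, Prod.smul_snd, smul_zero,
    add_zero, zero_add, Pi.add_apply, Pi.smul_apply, smul_eq_mul] at h1 h2 h3 h4
  have e1 := pt_ind hij (s := s * mu i) (t := s' * mu j) (by rw [mul_smul, mul_smul]; exact h1)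
  have e2 := pt_ind hij (s := t * nu i) (t := t' * nu j) (by rw [mul_smul, mul_smul]; exact h2)
  have e3 := h3 i
  have e4 := h4 i
  have e5 := h3 j
  have e6 := h4 j
  simp only [Pi.single_eq_same, Pi.single_eq_of_ne hij, Pi.single_eq_of_ne hij.symm, mul_zero,
    add_zero, zero_add] at e3 e4 e5 e6
  constructor
  · refine W_eq ?_ ?_ ?_ ?_
    · simp only [ra, rb, Prod.fst_add, Prod.smul_fst, smul_zero, add_zero, Prod.fst_zero]
      rw [← mul_smul, e1.1, zero_smul]
    · simp only [ra, rb, Prod.fst_add, Prod.snd_add, Prod.smul_fst, Prod.smul_snd, smul_zero,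
        zero_add, Prod.fst_zero, Prod.snd_zero]
      rw [← mul_smul, e2.1, zero_smul]
    · funext l
      simp only [ra, rb, Prod.fst_add, Prod.snd_add, Prod.smul_fst, Prod.smul_snd, Prod.fst_zero,
        Prod.snd_zero, Pi.add_apply, Pi.smul_apply, smul_eq_mul, Pi.zero_apply]
      by_cases hl : l = i
      · subst hl
        rw [Pi.single_eq_same, Pi.single_eq_same]
        exact e3
      · rw [Pi.single_eq_of_ne hl, Pi.single_eq_of_ne hl, mul_zero, mul_zero, add_zero]
    · funext l
      simp only [ra, rb, Prod.fst_add, Prod.snd_add, Prod.smul_fst, Prod.smul_snd, Prod.fst_zero,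
        Prod.snd_zero, Pi.add_apply, Pi.smul_apply, smul_eq_mul, Pi.zero_apply]
      by_cases hl : l = i
      · subst hl
        rw [Pi.single_eq_same, Pi.single_eq_same]
        exact e4
      · rw [Pi.single_eq_of_ne hl, Pi.single_eq_of_ne hl, mul_zero, mul_zero, add_zero]
  · refine W_eq ?_ ?_ ?_ ?_
    · simp only [ra, rb, Prod.fst_add, Prod.smul_fst, smul_zero, add_zero, Prod.fst_zero]
      rw [← mul_smul, e1.2, zero_smul]
    · simp only [ra, rb, Prod.fst_add, Prod.snd_add, Prod.smul_fst, Prod.smul_snd, smul_zero,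
        zero_add, Prod.fst_zero, Prod.snd_zero]
      rw [← mul_smul, e2.2, zero_smul]
    · funext l
      simp only [ra, rb, Prod.fst_add, Prod.snd_add, Prod.smul_fst, Prod.smul_snd, Prod.fst_zero,
        Prod.snd_zero, Pi.add_apply, Pi.smul_apply, smul_eq_mul, Pi.zero_apply]
      by_cases hl : l = j
      · subst hl
        rw [Pi.single_eq_same, Pi.single_eq_same]
        exact e5
      · rw [Pi.single_eq_of_ne hl, Pi.single_eq_of_ne hl, mul_zero, mul_zero, add_zero]
    · funext l
      simp only [ra, rb, Prod.fst_add, Prod.snd_add, Prod.smul_fst, Prod.smul_snd, Prod.fst_zero,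
        Prod.snd_zero, Pi.add_apply, Pi.smul_apply, smul_eq_mul, Pi.zero_apply]
      by_cases hl : l = j
      · subst hl
        rw [Pi.single_eq_same, Pi.single_eq_same]
        exact e6
      · rw [Pi.single_eq_of_ne hl, Pi.single_eq_of_ne hl, mul_zero, mul_zero, add_zero]

/-- the image of `h` -/
def im (al be ga mu nu : Fin 3 → K) (A B C D E F : K) (h : W K) : W K :=
  (bl A B C h.1 + ∑ i, (h.2.2.1 i * mu i) • pt K i,
    bl D E F h.2.1 + ∑ i, (h.2.2.2 i * nu i) • pt K i,
    fun i => mu i * pr h.1 (pt K i) + h.2.2.1 i * al i + h.2.2.2 i * ga i,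
    fun i => nu i * pr h.2.1 (pt K i) + h.2.2.1 i * ga i + h.2.2.2 i * be i)

/-- the vector `v` is not in `U` -/
theorem ml1 (U : Submodule K (W K)) (hU : Module.finrank K U = 4)
    {A B C D E F : K} (hra : ∀ i, ra al ga mu i ∈ U) (hrb : ∀ i, rb be ga nu i ∈ U)
    (hk1 : ∀ x, k1 mu A B C x ∈ U) (hk2 : ∀ x, k2 nu D E F x ∈ U) (h : W K)
    (hv : im al be ga mu nu A B C D E F h ∈ U)
    (h3 : ∀ i, (im al be ga mu nu A B C D E F h).2.2.1 i ≠ 0)
    (h4 : ∀ i, (im al be ga mu nu A B C D E F h).2.2.2 i ≠ 0)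
    (hdet : (im al be ga mu nu A B C D E F h).1.1 * (im al be ga mu nu A B C D E F h).2.1.2 -
      (im al be ga mu nu A B C D E F h).1.2 * (im al be ga mu nu A B C D E F h).2.1.1 ≠ 0) :
    False := by
  set v := im al be ga mu nu A B C D E F h with hvdef
  -- non-tight paths
  let nt : Fin 3 → Prop := fun i => ∀ s t : K, s • ra al ga mu i + t • rb be ga nu i = 0 →
    s = 0 ∧ t = 0
  have tight : ∀ i, ¬ nt i → mu i = 0 ∧ nu i = 0 ∧ al i ≠ 0 := by
    intro i hi
    simp only [nt, not_forall] at hi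
    obtain ⟨s, t, hst, hne⟩ := hi
    obtain ⟨e1, e2, e3, e4⟩ := comps hst
    simp only [ra, rb, Prod.fst_add, Prod.snd_add, Prod.smul_fst, Prod.smul_snd, smul_zero,
      add_zero, zero_add, Pi.add_apply, Pi.smul_apply, smul_eq_mul] at e1 e2 e3 e4
    have e5 := e3 i
    have e6 := e4 i
    simp only [Pi.single_eq_same] at e5 e6
    have e7 : mu i * pr h.1 (pt K i) + h.2.2.1 i * al i + h.2.2.2 i * ga i ≠ 0 := h3 i
    have e8 : nu i * pr h.2.1 (pt K i) + h.2.2.1 i * ga i + h.2.2.2 i * be i ≠ 0 := h4 i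
    have f1 : s = 0 ∨ mu i = 0 := by
      rcases smul_eq_zero.1 e1 with h | h
      · exact Or.inl h
      · exact Or.inr ((smul_eq_zero.1 h).resolve_right (pt_ne i))
    have f2 : t = 0 ∨ nu i = 0 := by
      rcases smul_eq_zero.1 e2 with h | h
      · exact Or.inl h
      · exact Or.inr ((smul_eq_zero.1 h).resolve_right (pt_ne i))
    have hs : s ≠ 0 := by
      intro h0
      subst h0
      have ht : t ≠ 0 := fun h0 => hne ⟨rfl, h0⟩
      have g1 := f2.resolve_left ht
      have g2 : ga i = 0 := by simpa [ht] using e5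
      have g3 : be i = 0 := by simpa [ht] using e6
      apply e8
      rw [g1, g2, g3]
      ring
    have ht : t ≠ 0 := by
      intro h0
      subst h0
      have g1 := f1.resolve_left hs
      have g2 : al i = 0 := by simpa [hs] using e5
      have g3 : ga i = 0 := by simpa [hs] using e6
      apply e7
      rw [g1, g2, g3]
      ring
    have g1 := f1.resolve_left hs
    have g2 := f2.resolve_left ht
    refine ⟨g1, g2, fun h0 => ?_⟩
    have g3 : ga i = 0 := by
      rw [h0, mul_zero, zero_add] at e5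
      exact (mul_eq_zero.1 e5).resolve_left ht
    apply e7
    rw [g1, g3, h0]
    ring
  by_cases c1 : ∃ i j, i ≠ j ∧ nt i ∧ nt j
  · obtain ⟨i, j, hij, hi, hj⟩ := c1
    obtain ⟨l, hl1, hl2⟩ := third i j
    refine dep5 U hU (hra i) (hrb i) (hra j) (hrb j) hv ?_
    intro a b c d e he
    have he0 : e = 0 := by
      obtain ⟨-, -, e3, -⟩ := comps he
      have e4 := e3 l
      simp only [ra, rb, Prod.fst_add, Prod.snd_add, Prod.smul_fst, Prod.smul_snd,
        Pi.add_apply, Pi.smul_apply, smul_eq_mul, Pi.single_eq_of_ne hl1, Pi.single_eq_of_ne hl2,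
        mul_zero, zero_add] at e4
      exact (mul_eq_zero.1 e4).resolve_right (h3 l)
    subst he0
    rw [zero_smul, add_zero] at he
    obtain ⟨g1, g2⟩ := split_pair hij he
    obtain ⟨rfl, rfl⟩ := hi _ _ g1
    obtain ⟨rfl, rfl⟩ := hj _ _ g2
    exact ⟨rfl, rfl, rfl, rfl, rfl⟩
  · by_cases c2 : ∃ i, nt i
    · obtain ⟨i, hi⟩ := c2
      have htj : ∀ j, j ≠ i → mu j = 0 ∧ nu j = 0 ∧ al j ≠ 0 := by
        intro j hj
        apply tight
        intro h0
        exact c1 ⟨j, i, hj, h0, hi⟩
      obtain ⟨j, hji, -⟩ := third i i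
      obtain ⟨l, hli, hlj⟩ := third i j
      obtain ⟨mj, nj, aj⟩ := htj j hji
      obtain ⟨ml, nl, al'⟩ := htj l hli
      refine dep5 U hU (hra j) (hra l) (hra i) (hrb i) hv ?_
      intro x y s t w he
      obtain ⟨e1, e2, e3, e4⟩ := comps he
      have e1' : (s * mu i) • pt K i + w • v.1 = 0 := by
        simp only [ra, rb, Prod.fst_add, Prod.smul_fst, mj, ml, zero_smul, smul_zero, add_zero,
          zero_add] at e1
        rw [mul_smul]
        exact e1
      have e2' : (t * nu i) • pt K i + w • v.2.1 = 0 := by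
        simp only [ra, rb, Prod.fst_add, Prod.snd_add, Prod.smul_fst, Prod.smul_snd, mj, ml,
          zero_smul, smul_zero, add_zero, zero_add] at e2
        rw [mul_smul]
        exact e2
      have hw : w = 0 := by
        by_contra hw
        apply hdet
        have g1 : v.1 = (-(w⁻¹ * (s * mu i))) • pt K i := by
          have : w • v.1 = -((s * mu i) • pt K i) := by
            rw [eq_neg_iff_add_eq_zero, add_comm]
            exact e1'
          rw [neg_smul, mul_smul, ← smul_neg, ← this, smul_smul, inv_mul_cancel₀ hw, one_smul]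
        have g2 : v.2.1 = (-(w⁻¹ * (t * nu i))) • pt K i := by
          have : w • v.2.1 = -((t * nu i) • pt K i) := by
            rw [eq_neg_iff_add_eq_zero, add_comm]
            exact e2'
          rw [neg_smul, mul_smul, ← smul_neg, ← this, smul_smul, inv_mul_cancel₀ hw, one_smul]
        rw [g1, g2]
        exact det_pt i _ _
      subst hw
      have hx : x = 0 := by
        have e5 := e3 j
        simp only [ra, rb, Prod.fst_add, Prod.snd_add, Prod.smul_fst, Prod.smul_snd,
          Pi.add_apply, Pi.smul_apply, smul_eq_mul, Pi.single_eq_same,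
          Pi.single_eq_of_ne hji, Pi.single_eq_of_ne hlj.symm,
          mul_zero, zero_mul, add_zero] at e5
        exact (mul_eq_zero.1 e5).resolve_right aj
      have hy : y = 0 := by
        have e5 := e3 l
        simp only [ra, rb, Prod.fst_add, Prod.snd_add, Prod.smul_fst, Prod.smul_snd,
          Pi.add_apply, Pi.smul_apply, smul_eq_mul, Pi.single_eq_same,
          Pi.single_eq_of_ne hli, Pi.single_eq_of_ne hlj,
          mul_zero, zero_mul, add_zero, zero_add] at e5
        exact (mul_eq_zero.1 e5).resolve_right al'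
      subst hx
      subst hy
      simp only [zero_smul, zero_add, add_zero] at he
      obtain ⟨rfl, rfl⟩ := hi _ _ he
      exact ⟨rfl, rfl, rfl, rfl, rfl⟩
    · have ht : ∀ i, mu i = 0 ∧ nu i = 0 ∧ al i ≠ 0 := fun i => tight i fun h0 => c2 ⟨i, h0⟩
      have hv1 : v.1 = bl A B C h.1 := by
        show bl A B C h.1 + ∑ i, (h.2.2.1 i * mu i) • pt K i = _
        rw [Finset.sum_eq_zero (fun i _ => by rw [(ht i).1, mul_zero, zero_smul]), add_zero]
      have hv2 : v.2.1 = bl D E F h.2.1 := by
        show bl D E F h.2.1 + ∑ i, (h.2.2.2 i * nu i) • pt K i = _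
        rw [Finset.sum_eq_zero (fun i _ => by rw [(ht i).2.1, mul_zero, zero_smul]), add_zero]
      refine dep5 U hU (hra 0) (hra 1) (hra 2) (hk1 h.1) (hk2 h.2.1) ?_
      intro x y z s t he
      obtain ⟨e1, e2, e3, e4⟩ := comps he
      have f0 := e3 0
      have f1 := e3 1
      have f2 := e3 2
      simp only [ra, k1, k2, Prod.fst_add, Prod.snd_add, Prod.smul_fst, Prod.smul_snd,
        Pi.add_apply, Pi.smul_apply, smul_eq_mul, (ht 0).1, (ht 1).1, (ht 2).1, zero_mul, mul_zero,
        add_zero, zero_add, zero_smul, smul_zero, Pi.zero_apply] at e1 e2 f0 f1 f2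
      have hne1 : bl A B C h.1 ≠ 0 := by
        intro h0
        apply hdet
        rw [hv1, h0]
        simp
      have hne2 : bl D E F h.2.1 ≠ 0 := by
        intro h0
        apply hdet
        rw [hv2, h0]
        simp
      have hs := (smul_eq_zero.1 e1).resolve_right hne1
      have ht' := (smul_eq_zero.1 e2).resolve_right hne2
      simp [Pi.single_apply] at f0 f1 f2
      exact ⟨f0.resolve_right (ht 0).2.2, f1.resolve_right (ht 1).2.2,
        f2.resolve_right (ht 2).2.2, hs, ht'⟩

/-- forms on a block vanishing at the point `i` -/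
def eta (K : Type u) [Field K] : Fin 3 → K × K := ![(0, 1), (1, 0), (1, -1)]

/-- forms on a block with value `1` at the point `i` -/
def sig (K : Type u) [Field K] : Fin 3 → K × K := ![(1, 0), (0, 1), (1, 0)]

lemma pr_eta (i : Fin 3) : pr (eta K i) (pt K i) = 0 := by
  fin_cases i <;> simp [pr, eta, pt]

lemma pr_eta_ne {i j : Fin 3} (h : j ≠ i) : pr (eta K i) (pt K j) ≠ 0 := by
  fin_cases i <;> fin_cases j <;> simp_all [pr, eta, pt]

lemma pr_sig (i : Fin 3) : pr (sig K i) (pt K i) = 1 := by
  fin_cases i <;> simp [pr, sig, pt]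

lemma of_eta {i : Fin 3} {x : K × K} (h : pr (eta K i) x = 0) : ∃ s : K, x = s • pt K i := by
  obtain ⟨a, b⟩ := x
  fin_cases i
  · refine ⟨a, ?_⟩
    simp [pr, eta, pt] at h ⊢
    exact h
  · refine ⟨b, ?_⟩
    simp [pr, eta, pt] at h ⊢
    exact h
  · refine ⟨a, ?_⟩
    simp [pr, eta, pt] at h ⊢
    linear_combination -h

lemma pr_bl (A B C : K) (x y : K × K) : pr x (bl A B C y) = pr y (bl A B C x) := by
  simp only [pr, bl]
  ring

lemma bl_zero {A B C : K} (h : ∀ x, bl A B C x = 0) : A = 0 ∧ B = 0 ∧ C = 0 := by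
  have h1 := h (1, 0)
  have h2 := h (0, 1)
  simp [bl] at h1 h2
  exact ⟨h1.1, h1.2, h2.2⟩

theorem ml2 (U : Submodule K (W K)) (hU : Module.finrank K U = 4)
    {A B C D E F : K} (hra : ∀ i, ra al ga mu i ∈ U) (hrb : ∀ i, rb be ga nu i ∈ U)
    (hk1 : ∀ x, k1 mu A B C x ∈ U) (hk2 : ∀ x, k2 nu D E F x ∈ U) (h : W K)
    (hv : im al be ga mu nu A B C D E F h = 0)
    (hla : ∀ x : K × K, ((x, 0, 0, 0) : W K) ∈ U → pr h.1 x = 0 → x = 0)
    (hlb : ∀ x : K × K, ((0, x, 0, 0) : W K) ∈ U → pr h.2.1 x = 0 → x = 0)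
    (hw1 : ∀ i s t, ((s • pt K i, 0, Pi.single i t, 0) : W K) ∈ U →
      s * pr h.1 (pt K i) + t * h.2.2.1 i = 0 → s = 0 ∧ t = 0)
    (hw2 : ∀ i s t, ((0, 0, Pi.single i s, Pi.single i t) : W K) ∈ U →
      s * h.2.2.1 i + t * h.2.2.2 i = 0 → s = 0 ∧ t = 0)
    (hw3 : ∀ i s t, ((0, s • pt K i, 0, Pi.single i t) : W K) ∈ U →
      s * pr h.2.1 (pt K i) + t * h.2.2.2 i = 0 → s = 0 ∧ t = 0) :
    (∀ i, al i = 0 ∧ be i = 0 ∧ ga i = 0 ∧ mu i = 0 ∧ nu i = 0) ∧
      (A = 0 ∧ B = 0 ∧ C = 0) ∧ D = 0 ∧ E = 0 ∧ F = 0 := by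
  obtain ⟨v1, v2, v3, v4⟩ := comps hv
  simp only [im] at v1 v2 v3 v4
  have hz : ∀ i, ga i = 0 → al i = 0 ∧ mu i = 0 ∧ be i = 0 ∧ nu i = 0 := by
    intro i hi
    have h1 := hw1 i (mu i) (al i) (by
      have h2 := hra i
      rw [ra, hi, Pi.single_zero] at h2
      exact h2) (by
      have h3 := v3 i
      rw [hi] at h3
      linear_combination h3)
    have h2 := hw3 i (nu i) (be i) (by
      have h2 := hrb i
      rw [rb, hi, Pi.single_zero] at h2
      exact h2) (by
      have h3 := v4 i
      rw [hi] at h3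
      linear_combination h3)
    exact ⟨h1.2, h1.1, h2.2, h2.1⟩
  have hmu : ∀ i, ga i ≠ 0 → mu i ≠ 0 := by
    intro i hi h0
    have h1 := hw2 i (al i) (ga i) (by
      have h2 := hra i
      rw [ra, h0, zero_smul] at h2
      exact h2) (by
      have h3 := v3 i
      rw [h0] at h3
      linear_combination h3)
    exact hi h1.2
  have hnu : ∀ i, ga i ≠ 0 → nu i ≠ 0 := by
    intro i hi h0
    have h1 := hw2 i (ga i) (be i) (by
      have h2 := hrb i
      rw [rb, h0, zero_smul] at h2
      exact h2) (by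
      have h3 := v4 i
      rw [h0] at h3
      linear_combination h3)
    exact hi h1.1
  -- the pairing with the first block
  have hp1 : ∀ x, pr h.1 (bl A B C x) + ∑ i, h.2.2.1 i * mu i * pr x (pt K i) = 0 := by
    intro x
    have h1 : pr x (bl A B C h.1 + ∑ i, (h.2.2.1 i * mu i) • pt K i) = 0 := by
      rw [v1]
      simp [pr]
    rw [pr_bl]
    rw [← h1]
    simp only [pr, Prod.fst_add, Prod.snd_add, Prod.fst_sum, Prod.snd_sum, Prod.smul_fst,
      Prod.smul_snd, smul_eq_mul, mul_add, Finset.mul_sum, Finset.sum_add_distrib]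
    have e1 : ∀ i : Fin 3, x.1 * (h.2.2.1 i * mu i * (pt K i).1) =
      h.2.2.1 i * mu i * (x.1 * (pt K i).1) := fun i => by ring
    have e2 : ∀ i : Fin 3, x.2 * (h.2.2.1 i * mu i * (pt K i).2) =
      h.2.2.1 i * mu i * (x.2 * (pt K i).2) := fun i => by ring
    simp only [e1, e2]
    ring
  have hp2 : ∀ x, pr h.2.1 (bl D E F x) + ∑ i, h.2.2.2 i * nu i * pr x (pt K i) = 0 := by
    intro x
    have h1 : pr x (bl D E F h.2.1 + ∑ i, (h.2.2.2 i * nu i) • pt K i) = 0 := by
      rw [v2]
      simp [pr]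
    rw [pr_bl]
    rw [← h1]
    simp only [pr, Prod.fst_add, Prod.snd_add, Prod.fst_sum, Prod.snd_sum, Prod.smul_fst,
      Prod.smul_snd, smul_eq_mul, mul_add, Finset.mul_sum, Finset.sum_add_distrib]
    have e1 : ∀ i : Fin 3, x.1 * (h.2.2.2 i * nu i * (pt K i).1) =
      h.2.2.2 i * nu i * (x.1 * (pt K i).1) := fun i => by ring
    have e2 : ∀ i : Fin 3, x.2 * (h.2.2.2 i * nu i * (pt K i).2) =
      h.2.2.2 i * nu i * (x.2 * (pt K i).2) := fun i => by ring
    simp only [e1, e2]
    ring
  have hga : ∀ i, ga i = 0 := by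
    intro i
    by_contra hi
    by_cases hj : ∃ j, j ≠ i ∧ ga j ≠ 0
    · obtain ⟨j, hji, hj⟩ := hj
      refine dep5 U hU (hra i) (hrb i) (hra j) (hrb j) (hk1 (eta K i)) ?_
      intro s t s' t' y he
      obtain ⟨e1, e2, e3, e4⟩ := comps he
      have f4 := e4 i
      have g4 := e4 j
      have g3 := e3 j
      simp only [ra, rb, k1, Prod.fst_add, Prod.snd_add, Prod.smul_fst, Prod.smul_snd, smul_zero,
        add_zero, zero_add, Pi.add_apply, Pi.smul_apply, smul_eq_mul, Pi.single_eq_same,
        Pi.single_eq_of_ne hji, Pi.single_eq_of_ne hji.symm, mul_zero, Pi.zero_apply]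
        at e2 f4 g4 g3
      have e5 := pt_ind hji.symm (s := t * nu i) (t := t' * nu j) (by
        rw [mul_smul, mul_smul]
        exact e2)
      have ht : t = 0 := (mul_eq_zero.1 e5.1).resolve_right (hnu i hi)
      have ht' : t' = 0 := (mul_eq_zero.1 e5.2).resolve_right (hnu j hj)
      subst ht
      subst ht'
      have hs : s = 0 := by
        rw [zero_mul, add_zero] at f4
        exact (mul_eq_zero.1 f4).resolve_right hi
      have hs' : s' = 0 := by
        rw [zero_mul, add_zero] at g4
        exact (mul_eq_zero.1 g4).resolve_right hj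
      subst hs
      subst hs'
      refine ⟨rfl, rfl, rfl, rfl, ?_⟩
      rw [zero_mul, zero_mul, zero_add, zero_add] at g3
      exact (mul_eq_zero.1 g3).resolve_right (mul_ne_zero (hmu j hj) (pr_eta_ne hji))
    · have hj' : ∀ j, j ≠ i → mu j = 0 := by
        intro j hji
        have : ga j = 0 := by
          by_contra h0
          exact hj ⟨j, hji, h0⟩
        exact (hz j this).2.1
      have hb0 : bl A B C (eta K i) = 0 := by
        apply hla
        · have h1 := hk1 (eta K i)
          have h2 : (fun l => mu l * pr (eta K i) (pt K l)) = 0 := by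
            funext l
            by_cases hl : l = i
            · subst hl
              rw [pr_eta, mul_zero]
              rfl
            · rw [hj' l hl, zero_mul]
              rfl
          rw [k1, h2] at h1
          exact h1
        · have h1 := hp1 (eta K i)
          rw [Finset.sum_eq_zero, add_zero] at h1
          · exact h1
          · intro l _
            by_cases hl : l = i
            · subst hl
              rw [pr_eta, mul_zero]
            · rw [hj' l hl, mul_zero, zero_mul]
      obtain ⟨s, hs⟩ := of_eta (i := i) (x := bl A B C (sig K i)) (by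
        rw [pr_bl, hb0]
        simp [pr])
      have h1 := hw1 i s (mu i) (by
        have h1 := hk1 (sig K i)
        have h2 : (fun l => mu l * pr (sig K i) (pt K l)) = Pi.single i (mu i) := by
          funext l
          by_cases hl : l = i
          · subst hl
            rw [pr_sig, mul_one, Pi.single_eq_same]
          · rw [hj' l hl, zero_mul, Pi.single_eq_of_ne hl]
        rw [k1, h2, hs] at h1
        exact h1) (by
        have h1 := hp1 (sig K i)
        rw [Finset.sum_eq_single i (fun l _ hl => by rw [hj' l hl, mul_zero, zero_mul])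
          (fun h0 => absurd (Finset.mem_univ i) h0), pr_sig, hs] at h1
        simp only [pr, Prod.smul_fst, Prod.smul_snd, smul_eq_mul] at h1 ⊢
        linear_combination h1)
      exact hmu i hi h1.2
  have hall : ∀ i, al i = 0 ∧ be i = 0 ∧ ga i = 0 ∧ mu i = 0 ∧ nu i = 0 := by
    intro i
    obtain ⟨a1, a2, a3, a4⟩ := hz i (hga i)
    exact ⟨a1, a3, hga i, a2, a4⟩
  refine ⟨hall, bl_zero fun x => ?_, bl_zero fun x => ?_⟩
  · apply hla
    · have h1 := hk1 x
      have h2 : (fun l => mu l * pr x (pt K l)) = 0 := by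
        funext l
        rw [(hall l).2.2.2.1, zero_mul]
        rfl
      rw [k1, h2] at h1
      exact h1
    · have h1 := hp1 x
      rw [Finset.sum_eq_zero, add_zero] at h1
      · exact h1
      · intro l _
        rw [(hall l).2.2.2.1, mul_zero, zero_mul]
  · apply hlb
    · have h1 := hk2 x
      have h2 : (fun l => nu l * pr x (pt K l)) = 0 := by
        funext l
        rw [(hall l).2.2.2.2, zero_mul]
        rfl
      rw [k2, h2] at h1
      exact h1
    · have h1 := hp2 x
      rw [Finset.sum_eq_zero, add_zero] at h1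
      · exact h1
      · intro l _
        rw [(hall l).2.2.2.2, mul_zero, zero_mul]

end Pool.Agent.N608.SG
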