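import Pool.Agent.N608.SG.Pat2

/-!
The sextic-octic `f` vanishes on every secant 3-space.
-/

set_option autoImplicit false
set_option linter.unusedSimpArgs false
set_option linter.unusedSectionVars false

namespace Pool.Agent.N608.SG

open MvPolynomial

universe u

variable {K : Type u} [Field K]

section

variable {U : Submodule K (Fin 10 → K)} {h : Fin 10 → K}
  {J : Ideal (MvPolynomial (Fin 10) K)}
  (hJX : vI (curve K TG tlab) ≤ J) (hJU : vI (U : Set (Fin 10 → K)) ≤ J) (hJh : lin h - 1 ∈ J)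

/-- `Φ` multiplied by a variable -/
noncomputable def mulX (Φ : MvPolynomial (Fin 10) K →ₗ[K] K) (e : Fin 10) :
    MvPolynomial (Fin 10) K →ₗ[K] K :=
  Φ ∘ₗ LinearMap.mulRight K (X e)

lemma mulX_apply (Φ : MvPolynomial (Fin 10) K →ₗ[K] K) (e : Fin 10) (p : MvPolynomial (Fin 10) K) :
    mulX Φ e p = Φ (p * X e) := rfl

lemma mulX_J {Φ : MvPolynomial (Fin 10) K →ₗ[K] K} (hΦ : ∀ p ∈ J, Φ p = 0) (e : Fin 10) :
    ∀ p ∈ J, mulX Φ e p = 0 := by
  intro p hp
  rw [mulX_apply]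
  exact hΦ _ (J.mul_mem_right _ hp)

lemma Phi_lin (Φ : MvPolynomial (Fin 10) K →ₗ[K] K) (c : Fin 10 → K)
    (q : MvPolynomial (Fin 10) K) : Φ (lin c * q) = ∑ e, c e * Φ (X e * q) := by
  rw [lin, Finset.sum_mul, map_sum]
  refine Finset.sum_congr rfl fun e _ => ?_
  rw [mul_assoc, ← smul_eq_C_mul, map_smul, smul_eq_mul]

include hJU in
lemma vec_mem {Φ : MvPolynomial (Fin 10) K →ₗ[K] K} (hΦ : ∀ p ∈ J, Φ p = 0) :
    (fun e => Φ (X e)) ∈ U := by
  by_contra hn
  obtain ⟨φ, hφ, hle⟩ := Submodule.exists_le_ker_of_notMem hn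
  apply hφ
  have hz : ∀ z : Fin 10 → K, φ z = ∑ e, φ (Pi.single e 1) * z e := by
    intro z
    conv_lhs => rw [← Finset.univ_sum_single z]
    rw [map_sum]
    refine Finset.sum_congr rfl fun e _ => ?_
    have : (Pi.single e (z e) : Fin 10 → K) = z e • Pi.single e 1 := by
      rw [← Pi.single_smul, smul_eq_mul, mul_one]
    rw [this, map_smul, smul_eq_mul, mul_comm]
  have hl : lin (fun e => φ (Pi.single e 1)) ∈ vI (U : Set (Fin 10 → K)) := by
    intro z hzU
    rw [eval_lin, ← hz]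
    exact hle hzU
  have h1 := hΦ _ (hJU hl)
  have h2 := Phi_lin Φ (fun e => φ (Pi.single e 1)) 1
  rw [mul_one, h1] at h2
  rw [hz]
  rw [h2]
  refine Finset.sum_congr rfl fun e _ => ?_
  rw [mul_one]

/-- the matrix of `Φ` -/
noncomputable def Tm (Φ : MvPolynomial (Fin 10) K →ₗ[K] K) (e e' : Fin 10) : K := Φ (X e' * X e)

include hJU in
lemma Tm_row {Φ : MvPolynomial (Fin 10) K →ₗ[K] K} (hΦ : ∀ p ∈ J, Φ p = 0) (e : Fin 10) :
    Tm Φ e ∈ U := vec_mem hJU (mulX_J hΦ e)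

include hJX in
lemma Tm_pat {Φ : MvPolynomial (Fin 10) K →ₗ[K] K} (hΦ : ∀ p ∈ J, Φ p = 0) : Pat (Tm Φ) where
  symm e e' := by rw [Tm, Tm, mul_comm]
  zero e e' h := by
    rw [Tm]
    apply hΦ
    apply hJX
    intro x hx
    rw [map_mul, eval_X, eval_X, mul_comm]
    exact mul_zero_of hx h
  t8 := by
    have : Φ (X 8 * (X 0 - X 1)) = 0 := by
      apply hΦ
      apply hJX
      intro x hx
      rw [map_mul, map_sub, eval_X, eval_X, eval_X]
      exact mul8_of hx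
    rw [mul_sub, map_sub, sub_eq_zero, mul_comm, mul_comm (X 8)] at this
    exact this
  t9 := by
    have : Φ (X 9 * (X 2 - X 3)) = 0 := by
      apply hΦ
      apply hJX
      intro x hx
      rw [map_mul, map_sub, eval_X, eval_X, eval_X]
      exact mul9_of hx
    rw [mul_sub, map_sub, sub_eq_zero, mul_comm, mul_comm (X 9)] at this
    exact this

include hJh in
lemma Tm_h {Φ : MvPolynomial (Fin 10) K →ₗ[K] K} (hΦ : ∀ p ∈ J, Φ p = 0) (e' : Fin 10) :
    Φ (X e') = ∑ e, h e * Tm Φ e e' := by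
  have h1 := hΦ _ (J.mul_mem_right (X e') hJh)
  rw [sub_mul, one_mul, map_sub, sub_eq_zero, Phi_lin] at h1
  rw [← h1]
  refine Finset.sum_congr rfl fun e _ => ?_
  rw [Tm, mul_comm (X e)]

variable (hU : Module.finrank K U = 4)
  (hX : ∀ z ∈ U, z ∈ curve K TG tlab → z ≠ 0 → ∑ i, h i * z i ≠ 0)

include hJX hJU hJh hU hX

lemma inj_aux (p : MvPolynomial (Fin 10) K) : ∀ Φ : MvPolynomial (Fin 10) K →ₗ[K] K,
    (∀ p ∈ J, Φ p = 0) → (∀ e, Φ (X e) = 0) → Φ p = 0 := by
  induction p using MvPolynomial.induction_on with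
  | C a =>
    intro Φ hΦ h0
    have h1 := hΦ _ hJh
    rw [map_sub, sub_eq_zero] at h1
    have h2 := Phi_lin Φ h 1
    rw [mul_one, h1] at h2
    have h3 : Φ 1 = 0 := by
      rw [h2]
      refine Finset.sum_eq_zero fun e _ => ?_
      rw [mul_one, h0, mul_zero]
    have h4 : (C a : MvPolynomial (Fin 10) K) = a • 1 := by
      rw [smul_eq_C_mul, mul_one]
    rw [h4, map_smul, h3, smul_zero]
  | add p q hp hq =>
    intro Φ hΦ h0
    rw [map_add, hp Φ hΦ h0, hq Φ hΦ h0, add_zero]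
  | mul_X p e hp =>
    intro Φ hΦ h0
    rw [← mulX_apply]
    apply hp _ (mulX_J hΦ e)
    intro e'
    have h1 := pat2 (Tm_pat hJX hΦ) (Tm_row hJU hΦ) hU h hX (fun e' => by
      rw [← Tm_h hJh hΦ, h0]) e
    exact congrFun h1 e'

theorem no_point (hrank : ((4 : ℕ) : Cardinal.{u}) ≤
      Module.rank K (MvPolynomial (Fin 10) K ⧸ J)) {w : Fin 10 → K} (hwU : w ∈ U)
    (hne : w 4 * w 5 * w 6 * w 7 * w 8 * w 9 * (w 0 * w 3 - w 1 * w 2) ≠ 0) : False := by
  have hfU : FiniteDimensional K U := FiniteDimensional.of_finrank_pos (by omega)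
  let Q := MvPolynomial (Fin 10) K ⧸ J
  let π : MvPolynomial (Fin 10) K →ₗ[K] Q := (Ideal.Quotient.mkₐ K J).toLinearMap
  have hπ : ∀ p ∈ J, π p = 0 := fun p hp => Ideal.Quotient.eq_zero_iff_mem.2 hp
  have hπs : Function.Surjective π := Ideal.Quotient.mk_surjective
  have hΦ : ∀ Ψ : Module.Dual K Q, ∀ p ∈ J, (Ψ ∘ₗ π) p = 0 := by
    intro Ψ p hp
    rw [LinearMap.comp_apply, hπ p hp, map_zero]
  let D : Module.Dual K Q →ₗ[K] U :=
    { toFun := fun Ψ => ⟨fun e => (Ψ ∘ₗ π) (X e), vec_mem hJU (hΦ Ψ)⟩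
      map_add' := fun _ _ => rfl
      map_smul' := fun _ _ => rfl }
  have hDi : Function.Injective D := by
    rw [← LinearMap.ker_eq_bot, LinearMap.ker_eq_bot']
    intro Ψ h0
    have h1 : ∀ e, (Ψ ∘ₗ π) (X e) = 0 := fun e => congrFun (congrArg Subtype.val h0) e
    apply LinearMap.ext
    intro q
    obtain ⟨p, rfl⟩ := hπs q
    exact inj_aux hJX hJU hJh hU hX p _ (hΦ Ψ) h1
  have hfD : FiniteDimensional K (Module.Dual K Q) := FiniteDimensional.of_injective D hDi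
  have hfQ : FiniteDimensional K Q := by
    exact (Module.finite_dual_iff K).1 hfD
  have hle : 4 ≤ Module.finrank K Q := by
    rw [← Nat.cast_le (α := Cardinal.{u}), Module.finrank_eq_rank]
    exact hrank
  have hDs : Function.Surjective D := by
    apply (LinearMap.injective_iff_surjective_of_finrank_eq_finrank ?_).1 hDi
    apply le_antisymm
    · exact LinearMap.finrank_le_finrank_of_injective hDi
    · rw [hU, Subspace.dual_finrank_eq]
      exact hle
  obtain ⟨Ψ, hΨ⟩ := hDs ⟨w, hwU⟩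
  have hw : w = fun e => (Ψ ∘ₗ π) (X e) := (congrArg Subtype.val hΨ).symm
  refine pat1 (Tm_pat hJX (hΦ Ψ)) (Tm_row hJU (hΦ Ψ)) hU h (w := w) ?_ hne
  rw [hw]
  funext e'
  exact Tm_h hJh (hΦ Ψ) e'

end

/-- the form of degree eight -/
noncomputable def ff (K : Type u) [Field K] : MvPolynomial (Fin 10) K :=
  X 4 * X 5 * X 6 * X 7 * X 8 * X 9 * (X 0 * X 3 - X 1 * X 2)

theorem ff_mem : ff K ∈ secI (curve K TG tlab) 3 := by
  rintro w ⟨U, ⟨hU, h, hX, hr⟩, hw⟩
  by_contra hne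
  refine no_point (U := U) (h := h) (J := vI (curve K TG tlab) ⊔ vI (U : Set (Fin 10 → K)) ⊔
    Ideal.span {lin h - 1}) (le_trans le_sup_left le_sup_left)
    (le_trans le_sup_right le_sup_left) ?_ hU hX hr hw ?_
  · exact Ideal.mem_sup_right (Ideal.mem_span_singleton_self _)
  · simpa [ff] using hne

end Pool.Agent.N608.SG
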