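import Pool.Agent.N608.SG.Graph

/-!
Three families of 7-dimensional spaces of points on secant 3-spaces.
-/

set_option autoImplicit false
set_option linter.unusedSimpArgs false
set_option linter.unusedSectionVars false

namespace Pool.Agent.N608.SG

open MvPolynomial

universe u

variable {K : Type u} [Field K]

/-- four points of the curve with dual labels and no further intersection -/
theorem secant_of {X : Set (Fin 10 → K)} (z : Fin 4 → Fin 10 → K) (d : Fin 4 → Fin 10)
    (hz : ∀ s, z s ∈ X) (hd : ∀ s s', s ≠ s' → z s (d s') = 0) (hn : ∀ s, z s (d s) ≠ 0)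
    (hc : ∀ c : Fin 4 → K, ∑ s, c s • z s ∈ X → ∀ s s', s ≠ s' → c s * c s' = 0) :
    IsSecant X 3 (Submodule.span K (Set.range z)) := by
  have hcoord : ∀ (c : Fin 4 → K) (s : Fin 4), (∑ s', c s' • z s') (d s) = c s * z s (d s) := by
    intro c s
    rw [Finset.sum_apply, Finset.sum_eq_single s]
    · rfl
    · intro s' _ hs
      rw [Pi.smul_apply, hd s' s hs, smul_zero]
    · intro h0
      exact absurd (Finset.mem_univ s) h0
  have hli : LinearIndependent K z := by
    rw [Fintype.linearIndependent_iff]
    intro c h0 s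
    have h1 := hcoord c s
    rw [h0, Pi.zero_apply] at h1
    exact (mul_eq_zero.1 h1.symm).resolve_right (hn s)
  -- the linear form
  let h : Fin 10 → K := ∑ s, (z s (d s))⁻¹ • Pi.single (d s) 1
  have hh : ∀ x : Fin 10 → K, ∑ i, h i * x i = ∑ s, (z s (d s))⁻¹ * x (d s) := by
    intro x
    simp only [h, Finset.sum_apply, Finset.sum_mul]
    rw [Finset.sum_comm]
    refine Finset.sum_congr rfl fun s _ => ?_
    rw [Finset.sum_eq_single (d s)]
    · simp
    · intro i _ hi
      simp [Pi.single_eq_of_ne hi]
    · intro h0
      exact absurd (Finset.mem_univ _) h0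
  have hhz : ∀ c : Fin 4 → K, ∑ i, h i * (∑ s', c s' • z s') i = ∑ s, c s := by
    intro c
    rw [hh]
    refine Finset.sum_congr rfl fun s _ => ?_
    rw [hcoord, mul_comm (c s), ← mul_assoc, inv_mul_cancel₀ (hn s), one_mul]
  refine ⟨?_, h, ?_, ?_⟩
  · rw [finrank_span_eq_card hli, Fintype.card_fin]
  · intro x hxU hxX hx0
    obtain ⟨c, rfl⟩ := (Submodule.mem_span_range_iff_exists_fun K).1 hxU
    rw [hhz]
    have h1 := hc c hxX
    have h2 : ∃ s, c s ≠ 0 := by
      by_contra hno
      apply hx0
      refine Finset.sum_eq_zero fun s _ => ?_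
      have : c s = 0 := by
        by_contra h3
        exact hno ⟨s, h3⟩
      rw [this, zero_smul]
    obtain ⟨s, hs⟩ := h2
    rw [Finset.sum_eq_single s]
    · exact hs
    · intro s' _ hs'
      exact (mul_eq_zero.1 (h1 s' s hs')).resolve_right hs
    · intro h0
      exact absurd (Finset.mem_univ s) h0
  · let J : Ideal (MvPolynomial (Fin 10) K) := vI X ⊔
      vI ((Submodule.span K (Set.range z) : Submodule K (Fin 10 → K)) : Set (Fin 10 → K)) ⊔
      Ideal.span {lin h - 1}
    let ev : MvPolynomial (Fin 10) K →ₐ[K] (Fin 4 → K) := AlgHom.pi fun s => aeval (z s)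
    have hev : ∀ p s, ev p s = eval (z s) p := by
      intro p s
      simp [ev, aeval_eq_eval]
    have hJ : ∀ p ∈ J, ev p = 0 := by
      have : J ≤ RingHom.ker (ev : MvPolynomial (Fin 10) K →+* (Fin 4 → K)) := by
        refine sup_le (sup_le ?_ ?_) ?_
        · intro p hp
          rw [RingHom.mem_ker]
          funext s
          exact (hev p s).trans (hp _ (hz s))
        · intro p hp
          rw [RingHom.mem_ker]
          funext s
          exact (hev p s).trans (hp _ (Submodule.subset_span ⟨s, rfl⟩))
        · rw [Ideal.span_singleton_le_iff_mem, RingHom.mem_ker]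
          funext s
          refine (hev _ s).trans ?_
          rw [map_sub, eval_lin, map_one]
          have h1 := hhz (Pi.single s 1)
          rw [Finset.sum_eq_single s, Pi.single_eq_same, one_smul, Finset.sum_eq_single s,
            Pi.single_eq_same] at h1
          · rw [h1, sub_self]
            rfl
          · intro s' _ hs'
            rw [Pi.single_eq_of_ne hs']
          · intro h0
            exact absurd (Finset.mem_univ s) h0
          · intro s' _ hs'
            rw [Pi.single_eq_of_ne hs', zero_smul]
          · intro h0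
            exact absurd (Finset.mem_univ s) h0
      intro p hp
      exact this hp
    let evq : (MvPolynomial (Fin 10) K ⧸ J) →ₐ[K] (Fin 4 → K) := Ideal.Quotient.liftₐ J ev hJ
    have hs : Function.Surjective evq.toLinearMap := by
      intro c
      refine ⟨Ideal.Quotient.mk J (lin (∑ s, (c s * (z s (d s))⁻¹) • Pi.single (d s) 1)), ?_⟩
      funext s
      have h1 : evq (Ideal.Quotient.mk J (lin (∑ s, (c s * (z s (d s))⁻¹) • Pi.single (d s) 1))) =
        ev (lin (∑ s, (c s * (z s (d s))⁻¹) • Pi.single (d s) 1)) := rfl
      rw [AlgHom.toLinearMap_apply, h1, hev, eval_lin]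
      simp only [Finset.sum_apply, Finset.sum_mul]
      rw [Finset.sum_comm]
      rw [Finset.sum_eq_single s]
      · rw [Finset.sum_eq_single (d s)]
        · simp only [Pi.smul_apply, Pi.single_eq_same, smul_eq_mul, mul_one]
          rw [mul_assoc, inv_mul_cancel₀ (hn s), mul_one]
        · intro i _ hi
          simp [Pi.single_eq_of_ne hi]
        · intro h0
          exact absurd (Finset.mem_univ _) h0
      · intro s' _ hs'
        refine Finset.sum_eq_zero fun i _ => ?_
        by_cases hi : i = d s'
        · subst hi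
          rw [hd s s' hs'.symm, mul_zero]
        · simp [Pi.single_eq_of_ne hi]
      · intro h0
        exact absurd (Finset.mem_univ s) h0
    have h2 := LinearMap.rank_le_of_surjective evq.toLinearMap hs
    rw [rank_fin_fun] at h2
    exact h2

/-- the three parametrised families -/
def par {R : Type u} [CommRing R] (i : Fin 3) (y : Fin 8 → R) : Fin 10 → R :=
  ![(![y 0, 0, y 0] : Fin 3 → R) i, (![0, y 0, y 0] : Fin 3 → R) i,
    (![y 1, 0, y 1] : Fin 3 → R) i, (![0, y 1, y 1] : Fin 3 → R) i,
    y 2, y 3, y 4, y 5, y 6, y 7]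

/-- the four points -/
def zz (i : Fin 3) (y : Fin 8 → K) : Fin 4 → Fin 10 → K :=
  (![![![y 0, 0, 0, 0, y 2, 0, 0, 0, 0, 0], ![0, 0, y 1, 0, 0, y 3, 0, 0, 0, 0],
      ![0, 0, 0, 0, 0, 0, y 4, y 5, 0, 0], ![0, 0, 0, 0, 0, 0, 0, 0, y 6, y 7]],
    ![![0, y 0, 0, 0, 0, 0, y 4, 0, 0, 0], ![0, 0, 0, y 1, 0, 0, 0, y 5, 0, 0],
      ![0, 0, 0, 0, y 2, y 3, 0, 0, 0, 0], ![0, 0, 0, 0, 0, 0, 0, 0, y 6, y 7]],
    ![![y 0, y 0, 0, 0, 0, 0, 0, 0, y 6, 0], ![0, 0, y 1, y 1, 0, 0, 0, 0, 0, y 7],
      ![0, 0, 0, 0, y 2, y 3, 0, 0, 0, 0], ![0, 0, 0, 0, 0, 0, y 4, y 5, 0, 0]]] :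
    Fin 3 → Fin 4 → Fin 10 → K) i

/-- labels separating the four points -/
def dd (i : Fin 3) : Fin 4 → Fin 10 :=
  (![![4, 5, 6, 8], ![6, 7, 4, 8], ![8, 9, 4, 6]] : Fin 3 → Fin 4 → Fin 10) i

/-- labels witnessing that no two points lie on a line -/
def ee (i : Fin 3) : Fin 4 → Fin 10 :=
  (![![0, 2, 6, 8], ![1, 3, 4, 8], ![0, 2, 4, 6]] : Fin 3 → Fin 4 → Fin 10) i

/-- the line of each point -/
def vv (i : Fin 3) : Fin 4 → Fin 11 :=
  (![![2, 4, 6, 9], ![5, 7, 3, 9], ![8, 10, 3, 6]] : Fin 3 → Fin 4 → Fin 11) i

lemma zz_mem (i : Fin 3) (y : Fin 8 → K) (s : Fin 4) : zz i y s ∈ curve K TG tlab := by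
  rw [mem_curve]
  refine ⟨vv i s, ?_, ?_, ?_⟩
  · intro j hj
    fin_cases i <;> fin_cases s <;> fin_cases j <;>
      first | rfl | exact absurd hj (by decide)
  · intro h
    fin_cases i <;> fin_cases s <;> first | rfl | exact absurd h (by decide)
  · intro h
    fin_cases i <;> fin_cases s <;> first | rfl | exact absurd h (by decide)

theorem zz_secant (i : Fin 3) (y : Fin 8 → K) (hy : ∀ j, y j ≠ 0) :
    IsSecant (curve K TG tlab) 3 (Submodule.span K (Set.range (zz i y))) := by
  refine secant_of (zz i y) (dd i) (zz_mem i y) ?_ ?_ ?_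
  · intro s s' hs
    fin_cases i <;> fin_cases s <;> fin_cases s' <;> first | rfl | exact absurd rfl hs
  · intro s
    fin_cases i <;> fin_cases s <;> exact hy _
  · intro c hX
    have hp := fun e e' h => mul_zero_of (e := e) (e' := e') hX h
    have hcoord : ∀ e : Fin 10, (∑ s, c s • zz i y s) e = c 0 * zz i y 0 e + c 1 * zz i y 1 e +
        c 2 * zz i y 2 e + c 3 * zz i y 3 e := by
      intro e
      rw [Fin.sum_univ_four]
      rfl
    simp only [hcoord] at hp
    have key : ∀ s s' : Fin 4, s < s' → c s * c s' = 0 := by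
      intro s s' hs
      fin_cases i
      · fin_cases s <;> fin_cases s' <;> first | exact absurd hs (by decide) | skip
        · have := hp 0 2 (by decide)
          simpa [zz, hy] using this
        · have := hp 4 6 (by decide)
          simpa [zz, hy] using this
        · have := hp 4 8 (by decide)
          simpa [zz, hy] using this
        · have := hp 5 6 (by decide)
          simpa [zz, hy] using this
        · have := hp 5 8 (by decide)
          simpa [zz, hy] using this
        · have := hp 6 8 (by decide)
          simpa [zz, hy] using this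
      · fin_cases s <;> fin_cases s' <;> first | exact absurd hs (by decide) | skip
        · have := hp 1 3 (by decide)
          simpa [zz, hy] using this
        · have := hp 6 4 (by decide)
          simpa [zz, hy] using this
        · have := hp 6 8 (by decide)
          simpa [zz, hy] using this
        · have := hp 7 4 (by decide)
          simpa [zz, hy] using this
        · have := hp 7 8 (by decide)
          simpa [zz, hy] using this
        · have := hp 4 8 (by decide)
          simpa [zz, hy] using this
      · fin_cases s <;> fin_cases s' <;> first | exact absurd hs (by decide) | skip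
        · have := hp 0 2 (by decide)
          simpa [zz, hy] using this
        · have := hp 8 4 (by decide)
          simpa [zz, hy] using this
        · have := hp 8 6 (by decide)
          simpa [zz, hy] using this
        · have := hp 9 4 (by decide)
          simpa [zz, hy] using this
        · have := hp 9 6 (by decide)
          simpa [zz, hy] using this
        · have := hp 4 6 (by decide)
          simpa [zz, hy] using this
    intro s s' hs
    rcases lt_or_gt_of_ne hs with h | h
    · exact key s s' h
    · rw [mul_comm]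
      exact key s' s h

lemma par_mem (i : Fin 3) (y : Fin 8 → K) :
    par i y ∈ Submodule.span K (Set.range (zz i y)) := by
  have : par i y = ∑ s, zz i y s := by
    funext j
    rw [Fin.sum_univ_four]
    fin_cases i <;> fin_cases j <;> simp [par, zz]
  rw [this]
  exact Submodule.sum_mem _ fun s _ => Submodule.subset_span ⟨s, rfl⟩

theorem vanish {g : MvPolynomial (Fin 10) K} (hg : g ∈ secI (curve K TG tlab) 3) (i : Fin 3)
    (y : Fin 8 → K) (hy : ∀ j, y j ≠ 0) : eval (par i y) g = 0 :=
  hg _ ⟨_, zz_secant i y hy, par_mem i y⟩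

end Pool.Agent.N608.SG
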