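import Pool.Agent.N608.SG.PartA
import Pool.Agent.N608.SG.PartB

/-!
Products of linear forms in the ideal lie in the cube of `(x_0, x_1, x_2, x_3)`.
-/

set_option autoImplicit false
set_option linter.unusedSimpArgs false
set_option linter.unusedSectionVars false

namespace Pool.Agent.N608.SG

open MvPolynomial

universe u

variable {K : Type u} [Field K]

lemma par_map {R S : Type u} [CommRing R] [CommRing S] (f : R →+* S) (i : Fin 3) (y : Fin 8 → R)
    (e : Fin 10) : f (par i y e) = par i (fun j => f (y j)) e := by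
  fin_cases i <;> fin_cases e <;> simp [par]

/-- a factor vanishes on the family -/
lemma factor [Infinite K] (l : List (Fin 10 → K))
    (hg : (l.map lin).prod ∈ secI (curve K TG tlab) 3) (i : Fin 3) :
    ∃ c ∈ l, ∀ y : Fin 8 → K, ∑ e, c e * par i y e = 0 := by
  let φ : MvPolynomial (Fin 10) K →ₐ[K] MvPolynomial (Fin 8) K := aeval (par i X)
  have hφ : ∀ (y : Fin 8 → K) (p : MvPolynomial (Fin 10) K),
      eval y (φ p) = eval (par i y) p := by
    intro y p
    have h1 : eval y (φ p) = aeval (fun e => eval y (par i X e)) p := by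
      simp only [φ]
      rw [← MvPolynomial.coe_aeval_eq_eval, RingHom.coe_coe, MvPolynomial.comp_aeval_apply]
    rw [h1]
    have h2 : (fun e => eval y (par i (X : Fin 8 → MvPolynomial (Fin 8) K) e)) = par i y := by
      funext e
      rw [par_map (eval y) i X e]
      simp only [eval_X]
    rw [h2, aeval_eq_eval]
  have h0 : φ (l.map lin).prod * ∏ j, X j = 0 := by
    apply MvPolynomial.funext
    intro y
    rw [map_mul, map_zero, hφ, map_prod]
    simp only [eval_X]
    by_cases hy : ∀ j, y j ≠ 0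
    · rw [vanish hg i y hy, zero_mul]
    · rw [not_forall] at hy
      obtain ⟨j, hj⟩ := hy
      rw [not_not] at hj
      rw [Finset.prod_eq_zero (Finset.mem_univ j) hj, mul_zero]
  have h1 : φ (l.map lin).prod = 0 := by
    rcases mul_eq_zero.1 h0 with h | h
    · exact h
    · exfalso
      rw [Finset.prod_eq_zero_iff] at h
      obtain ⟨j, -, hj⟩ := h
      exact X_ne_zero j hj
  rw [map_list_prod, List.prod_eq_zero_iff, List.map_map, List.mem_map] at h1
  obtain ⟨c, hc, hc0⟩ := h1
  refine ⟨c, hc, fun y => ?_⟩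
  rw [← eval_lin, ← hφ]
  rw [Function.comp_apply] at hc0
  rw [hc0, map_zero]

/-- the coefficients of such a factor -/
lemma coeffs {i : Fin 3} {c : Fin 10 → K} (h : ∀ y : Fin 8 → K, ∑ e, c e * par i y e = 0) :
    (∀ e : Fin 10, 4 ≤ e.val → c e = 0) ∧
      (![c 0, c 1, c 0 + c 1] : Fin 3 → K) i = 0 ∧ (![c 2, c 3, c 2 + c 3] : Fin 3 → K) i = 0 := by
  have h' : ∀ y : Fin 8 → K, c 0 * par i y 0 + c 1 * par i y 1 + c 2 * par i y 2 +
      c 3 * par i y 3 + c 4 * par i y 4 + c 5 * par i y 5 + c 6 * par i y 6 + c 7 * par i y 7 +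
      c 8 * par i y 8 + c 9 * par i y 9 = 0 := by
    intro y
    rw [← h y, sum10]
  have h0 := h' (Pi.single 0 1)
  have h1 := h' (Pi.single 1 1)
  have h2 := h' (Pi.single 2 1)
  have h3 := h' (Pi.single 3 1)
  have h4 := h' (Pi.single 4 1)
  have h5 := h' (Pi.single 5 1)
  have h6 := h' (Pi.single 6 1)
  have h7 := h' (Pi.single 7 1)
  refine ⟨?_, ?_, ?_⟩
  · intro e he
    fin_cases i <;> simp [par] at h2 h3 h4 h5 h6 h7 <;>
      fin_cases e <;> first | exact absurd he (by decide) | assumption
  · fin_cases i <;> simp [par] at h0 ⊢ <;> exact h0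
  · fin_cases i <;> simp [par] at h1 ⊢ <;> exact h1

/-- the substitution -/
noncomputable def psi (K : Type u) [Field K] : MvPolynomial (Fin 10) K →ₐ[K] Polynomial K :=
  aeval ![Polynomial.X, 0, 0, Polynomial.X, 1, 1, 1, 1, 1, 1]

lemma psi_ff : psi K (ff K) = Polynomial.X ^ 2 := by
  simp [psi, ff]
  ring

/-- only the first four variables -/
def B (c : Fin 10 → K) : Prop := ∀ e : Fin 10, 4 ≤ e.val → c e = 0

lemma psi_B {c : Fin 10 → K} (h : B c) : (Polynomial.X : Polynomial K) ∣ psi K (lin c) := by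
  rw [lin, map_sum]
  refine Finset.dvd_sum fun e _ => ?_
  rw [map_mul]
  by_cases he : 4 ≤ e.val
  · rw [h e he, map_zero, map_zero, zero_mul]
    exact dvd_zero _
  · apply dvd_mul_of_dvd_right
    fin_cases e <;> first | exact absurd (by decide) he | simp [psi]

open Classical in
lemma psi_list (l : List (Fin 10 → K)) :
    (Polynomial.X : Polynomial K) ^ (l.filter (fun c => decide (B c))).length ∣
      psi K (l.map lin).prod := by
  induction l with
  | nil => simp
  | cons c l ih =>
    rw [List.map_cons, List.prod_cons, map_mul]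
    by_cases hc : B c
    · rw [List.filter_cons_of_pos (by simpa using hc), List.length_cons, pow_succ, mul_comm]
      exact mul_dvd_mul (psi_B hc) ih
    · rw [List.filter_cons_of_neg (by simpa using hc)]
      exact dvd_mul_of_dvd_right ih _

lemma prod_dvd [Infinite K] (l : List (Fin 10 → K))
    (hg : (l.map lin).prod ∈ secI (curve K TG tlab) 3) :
    (Polynomial.X : Polynomial K) ^ 3 ∣ psi K (l.map lin).prod := by
  classical
  obtain ⟨c0, m0, h0⟩ := factor l hg 0
  obtain ⟨c1, m1, h1⟩ := factor l hg 1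
  obtain ⟨c2, m2, h2⟩ := factor l hg 2
  obtain ⟨b0, p0, q0⟩ := coeffs h0
  obtain ⟨b1, p1, q1⟩ := coeffs h1
  obtain ⟨b2, p2, q2⟩ := coeffs h2
  simp only [Matrix.cons_val_zero, Matrix.cons_val_one, Matrix.cons_val_two, Matrix.cons_val]
    at p0 p1 p2 q0 q1 q2
  have hz : ∀ c ∈ l, B c → c 0 = 0 → c 1 = 0 → c 2 = 0 → c 3 = 0 →
      (Polynomial.X : Polynomial K) ^ 3 ∣ psi K (l.map lin).prod := by
    intro c hc hb e0 e1 e2 e3
    have : lin c = 0 := by
      rw [lin]
      refine Finset.sum_eq_zero fun e _ => ?_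
      have : c e = 0 := by
        by_cases he : 4 ≤ e.val
        · exact hb e he
        · fin_cases e <;> first | exact absurd (by decide) he | assumption
      rw [this, map_zero, zero_mul]
    have h0 : (l.map lin).prod = 0 := by
      rw [List.prod_eq_zero_iff, List.mem_map]
      exact ⟨c, hc, this⟩
    rw [h0, map_zero]
    exact dvd_zero _
  by_cases e01 : c0 = c1
  · subst e01
    exact hz c0 m0 b0 p0 p1 q0 q1
  by_cases e02 : c0 = c2
  · subst e02
    refine hz c0 m0 b0 p0 ?_ q0 ?_
    · rw [p0, zero_add] at p2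
      exact p2
    · rw [q0, zero_add] at q2
      exact q2
  by_cases e12 : c1 = c2
  · subst e12
    refine hz c1 m1 b1 ?_ p1 ?_ q1
    · rw [p1, add_zero] at p2
      exact p2
    · rw [q1, add_zero] at q2
      exact q2
  refine dvd_trans (pow_dvd_pow _ ?_) (psi_list l)
  have h3 : ({c0, c1, c2} : Finset (Fin 10 → K)) ⊆
      (l.filter (fun c => decide (B c))).toFinset := by
    intro c hc
    rw [List.mem_toFinset, List.mem_filter]
    simp only [Finset.mem_insert, Finset.mem_singleton] at hc
    rcases hc with rfl | rfl | rfl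
    · exact ⟨m0, decide_eq_true b0⟩
    · exact ⟨m1, decide_eq_true b1⟩
    · exact ⟨m2, decide_eq_true b2⟩
  have h4 := Finset.card_le_card h3
  have h5 : ({c0, c1, c2} : Finset (Fin 10 → K)).card = 3 := by
    rw [Finset.card_insert_of_notMem, Finset.card_insert_of_notMem, Finset.card_singleton]
    · simpa using e12
    · simp only [Finset.mem_insert, Finset.mem_singleton, not_or]
      exact ⟨e01, e02⟩
  rw [h5] at h4
  exact h4.trans (List.toFinset_card_le _)

theorem le_comap [Infinite K] {T : Set (MvPolynomial (Fin 10) K)}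
    (hT : Ideal.span T = secI (curve K TG tlab) 3) (hP : ∀ g ∈ T, IsProd g) :
    Ideal.span T ≤ (Ideal.span {(Polynomial.X : Polynomial K) ^ 3}).comap (psi K) := by
  rw [Ideal.span_le]
  intro g hg
  rw [SetLike.mem_coe, Ideal.mem_comap, Ideal.mem_span_singleton]
  obtain ⟨l, hl⟩ := hP g hg
  have h2 : g ∈ secI (curve K TG tlab) 3 := by
    rw [← hT]
    exact Ideal.subset_span hg
  rw [hl] at h2 ⊢
  exact prod_dvd l h2

theorem not_gen [Infinite K] : ¬ GenByProducts (secI (curve K TG tlab) 3) := by
  rintro ⟨T, hT, hP⟩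
  have h0 : ff K ∈ Ideal.span T := by
    rw [hT]
    exact ff_mem
  have h1 := le_comap hT hP h0
  rw [Ideal.mem_comap, psi_ff, Ideal.mem_span_singleton, Polynomial.X_pow_dvd_iff] at h1
  have h3 := h1 2 (by norm_num)
  rw [Polynomial.coeff_X_pow, if_pos rfl] at h3
  exact one_ne_zero h3

end Pool.Agent.N608.SG
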