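import Pool.Agent.N608.SG.Graph
import Pool.Agent.N608.SG.ML

/-!
From symmetric matrices on the ten labels to the linear algebra of `ML`.
-/

set_option autoImplicit false
set_option linter.unusedSimpArgs false
set_option linter.unusedSectionVars false

namespace Pool.Agent.N608.SG

open MvPolynomial

universe u

variable {K : Type u} [Field K]

lemma ext10 {R : Type u} {f g : Fin 10 → R} (h0 : f 0 = g 0) (h1 : f 1 = g 1) (h2 : f 2 = g 2)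
    (h3 : f 3 = g 3) (h4 : f 4 = g 4) (h5 : f 5 = g 5) (h6 : f 6 = g 6) (h7 : f 7 = g 7)
    (h8 : f 8 = g 8) (h9 : f 9 = g 9) : f = g := by
  funext i
  fin_cases i <;> assumption

lemma sum10 (f : Fin 10 → K) : ∑ i, f i = f 0 + f 1 + f 2 + f 3 + f 4 + f 5 + f 6 + f 7 + f 8 +
    f 9 := by
  simp [Fin.sum_univ_castSucc]

/-- the coordinates in blocks -/
def th : (Fin 10 → K) ≃ₗ[K] W K where
  toFun x := ((x 0, x 1), (x 2, x 3), ![x 4, x 6, x 8], ![x 5, x 7, x 9])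
  invFun w := ![w.1.1, w.1.2, w.2.1.1, w.2.1.2, w.2.2.1 0, w.2.2.2 0, w.2.2.1 1, w.2.2.2 1,
    w.2.2.1 2, w.2.2.2 2]
  map_add' x y := by
    refine W_eq rfl rfl (funext fun i => ?_) (funext fun i => ?_)
    · fin_cases i <;> rfl
    · fin_cases i <;> rfl
  map_smul' a x := by
    refine W_eq rfl rfl (funext fun i => ?_) (funext fun i => ?_)
    · fin_cases i <;> rfl
    · fin_cases i <;> rfl
  left_inv x := by
    apply ext10 <;> rfl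
  right_inv w := by
    refine W_eq rfl rfl (funext fun i => ?_) (funext fun i => ?_)
    · fin_cases i <;> rfl
    · fin_cases i <;> rfl

/-- the pattern of zeros -/
structure Pat (T : Fin 10 → Fin 10 → K) : Prop where
  symm : ∀ e e', T e e' = T e' e
  zero : ∀ e e', (∀ v, ¬ (e ∈ sup v ∧ e' ∈ sup v)) → T e e' = 0
  t8 : T 8 0 = T 8 1
  t9 : T 9 2 = T 9 3

lemma Pat.z02 {T : Fin 10 → Fin 10 → K} (h : Pat T) : T 0 2 = 0 := h.zero 0 2 (by decide)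
lemma Pat.z03 {T : Fin 10 → Fin 10 → K} (h : Pat T) : T 0 3 = 0 := h.zero 0 3 (by decide)
lemma Pat.z05 {T : Fin 10 → Fin 10 → K} (h : Pat T) : T 0 5 = 0 := h.zero 0 5 (by decide)
lemma Pat.z06 {T : Fin 10 → Fin 10 → K} (h : Pat T) : T 0 6 = 0 := h.zero 0 6 (by decide)
lemma Pat.z07 {T : Fin 10 → Fin 10 → K} (h : Pat T) : T 0 7 = 0 := h.zero 0 7 (by decide)
lemma Pat.z09 {T : Fin 10 → Fin 10 → K} (h : Pat T) : T 0 9 = 0 := h.zero 0 9 (by decide)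
lemma Pat.z12 {T : Fin 10 → Fin 10 → K} (h : Pat T) : T 1 2 = 0 := h.zero 1 2 (by decide)
lemma Pat.z13 {T : Fin 10 → Fin 10 → K} (h : Pat T) : T 1 3 = 0 := h.zero 1 3 (by decide)
lemma Pat.z14 {T : Fin 10 → Fin 10 → K} (h : Pat T) : T 1 4 = 0 := h.zero 1 4 (by decide)
lemma Pat.z15 {T : Fin 10 → Fin 10 → K} (h : Pat T) : T 1 5 = 0 := h.zero 1 5 (by decide)
lemma Pat.z17 {T : Fin 10 → Fin 10 → K} (h : Pat T) : T 1 7 = 0 := h.zero 1 7 (by decide)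
lemma Pat.z19 {T : Fin 10 → Fin 10 → K} (h : Pat T) : T 1 9 = 0 := h.zero 1 9 (by decide)
lemma Pat.z20 {T : Fin 10 → Fin 10 → K} (h : Pat T) : T 2 0 = 0 := h.zero 2 0 (by decide)
lemma Pat.z21 {T : Fin 10 → Fin 10 → K} (h : Pat T) : T 2 1 = 0 := h.zero 2 1 (by decide)
lemma Pat.z24 {T : Fin 10 → Fin 10 → K} (h : Pat T) : T 2 4 = 0 := h.zero 2 4 (by decide)
lemma Pat.z26 {T : Fin 10 → Fin 10 → K} (h : Pat T) : T 2 6 = 0 := h.zero 2 6 (by decide)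
lemma Pat.z27 {T : Fin 10 → Fin 10 → K} (h : Pat T) : T 2 7 = 0 := h.zero 2 7 (by decide)
lemma Pat.z28 {T : Fin 10 → Fin 10 → K} (h : Pat T) : T 2 8 = 0 := h.zero 2 8 (by decide)
lemma Pat.z30 {T : Fin 10 → Fin 10 → K} (h : Pat T) : T 3 0 = 0 := h.zero 3 0 (by decide)
lemma Pat.z31 {T : Fin 10 → Fin 10 → K} (h : Pat T) : T 3 1 = 0 := h.zero 3 1 (by decide)
lemma Pat.z34 {T : Fin 10 → Fin 10 → K} (h : Pat T) : T 3 4 = 0 := h.zero 3 4 (by decide)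
lemma Pat.z35 {T : Fin 10 → Fin 10 → K} (h : Pat T) : T 3 5 = 0 := h.zero 3 5 (by decide)
lemma Pat.z36 {T : Fin 10 → Fin 10 → K} (h : Pat T) : T 3 6 = 0 := h.zero 3 6 (by decide)
lemma Pat.z38 {T : Fin 10 → Fin 10 → K} (h : Pat T) : T 3 8 = 0 := h.zero 3 8 (by decide)
lemma Pat.z41 {T : Fin 10 → Fin 10 → K} (h : Pat T) : T 4 1 = 0 := h.zero 4 1 (by decide)
lemma Pat.z42 {T : Fin 10 → Fin 10 → K} (h : Pat T) : T 4 2 = 0 := h.zero 4 2 (by decide)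
lemma Pat.z43 {T : Fin 10 → Fin 10 → K} (h : Pat T) : T 4 3 = 0 := h.zero 4 3 (by decide)
lemma Pat.z46 {T : Fin 10 → Fin 10 → K} (h : Pat T) : T 4 6 = 0 := h.zero 4 6 (by decide)
lemma Pat.z47 {T : Fin 10 → Fin 10 → K} (h : Pat T) : T 4 7 = 0 := h.zero 4 7 (by decide)
lemma Pat.z48 {T : Fin 10 → Fin 10 → K} (h : Pat T) : T 4 8 = 0 := h.zero 4 8 (by decide)
lemma Pat.z49 {T : Fin 10 → Fin 10 → K} (h : Pat T) : T 4 9 = 0 := h.zero 4 9 (by decide)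
lemma Pat.z50 {T : Fin 10 → Fin 10 → K} (h : Pat T) : T 5 0 = 0 := h.zero 5 0 (by decide)
lemma Pat.z51 {T : Fin 10 → Fin 10 → K} (h : Pat T) : T 5 1 = 0 := h.zero 5 1 (by decide)
lemma Pat.z53 {T : Fin 10 → Fin 10 → K} (h : Pat T) : T 5 3 = 0 := h.zero 5 3 (by decide)
lemma Pat.z56 {T : Fin 10 → Fin 10 → K} (h : Pat T) : T 5 6 = 0 := h.zero 5 6 (by decide)
lemma Pat.z57 {T : Fin 10 → Fin 10 → K} (h : Pat T) : T 5 7 = 0 := h.zero 5 7 (by decide)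
lemma Pat.z58 {T : Fin 10 → Fin 10 → K} (h : Pat T) : T 5 8 = 0 := h.zero 5 8 (by decide)
lemma Pat.z59 {T : Fin 10 → Fin 10 → K} (h : Pat T) : T 5 9 = 0 := h.zero 5 9 (by decide)
lemma Pat.z60 {T : Fin 10 → Fin 10 → K} (h : Pat T) : T 6 0 = 0 := h.zero 6 0 (by decide)
lemma Pat.z62 {T : Fin 10 → Fin 10 → K} (h : Pat T) : T 6 2 = 0 := h.zero 6 2 (by decide)
lemma Pat.z63 {T : Fin 10 → Fin 10 → K} (h : Pat T) : T 6 3 = 0 := h.zero 6 3 (by decide)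
lemma Pat.z64 {T : Fin 10 → Fin 10 → K} (h : Pat T) : T 6 4 = 0 := h.zero 6 4 (by decide)
lemma Pat.z65 {T : Fin 10 → Fin 10 → K} (h : Pat T) : T 6 5 = 0 := h.zero 6 5 (by decide)
lemma Pat.z68 {T : Fin 10 → Fin 10 → K} (h : Pat T) : T 6 8 = 0 := h.zero 6 8 (by decide)
lemma Pat.z69 {T : Fin 10 → Fin 10 → K} (h : Pat T) : T 6 9 = 0 := h.zero 6 9 (by decide)
lemma Pat.z70 {T : Fin 10 → Fin 10 → K} (h : Pat T) : T 7 0 = 0 := h.zero 7 0 (by decide)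
lemma Pat.z71 {T : Fin 10 → Fin 10 → K} (h : Pat T) : T 7 1 = 0 := h.zero 7 1 (by decide)
lemma Pat.z72 {T : Fin 10 → Fin 10 → K} (h : Pat T) : T 7 2 = 0 := h.zero 7 2 (by decide)
lemma Pat.z74 {T : Fin 10 → Fin 10 → K} (h : Pat T) : T 7 4 = 0 := h.zero 7 4 (by decide)
lemma Pat.z75 {T : Fin 10 → Fin 10 → K} (h : Pat T) : T 7 5 = 0 := h.zero 7 5 (by decide)
lemma Pat.z78 {T : Fin 10 → Fin 10 → K} (h : Pat T) : T 7 8 = 0 := h.zero 7 8 (by decide)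
lemma Pat.z79 {T : Fin 10 → Fin 10 → K} (h : Pat T) : T 7 9 = 0 := h.zero 7 9 (by decide)
lemma Pat.z82 {T : Fin 10 → Fin 10 → K} (h : Pat T) : T 8 2 = 0 := h.zero 8 2 (by decide)
lemma Pat.z83 {T : Fin 10 → Fin 10 → K} (h : Pat T) : T 8 3 = 0 := h.zero 8 3 (by decide)
lemma Pat.z84 {T : Fin 10 → Fin 10 → K} (h : Pat T) : T 8 4 = 0 := h.zero 8 4 (by decide)
lemma Pat.z85 {T : Fin 10 → Fin 10 → K} (h : Pat T) : T 8 5 = 0 := h.zero 8 5 (by decide)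
lemma Pat.z86 {T : Fin 10 → Fin 10 → K} (h : Pat T) : T 8 6 = 0 := h.zero 8 6 (by decide)
lemma Pat.z87 {T : Fin 10 → Fin 10 → K} (h : Pat T) : T 8 7 = 0 := h.zero 8 7 (by decide)
lemma Pat.z90 {T : Fin 10 → Fin 10 → K} (h : Pat T) : T 9 0 = 0 := h.zero 9 0 (by decide)
lemma Pat.z91 {T : Fin 10 → Fin 10 → K} (h : Pat T) : T 9 1 = 0 := h.zero 9 1 (by decide)
lemma Pat.z94 {T : Fin 10 → Fin 10 → K} (h : Pat T) : T 9 4 = 0 := h.zero 9 4 (by decide)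
lemma Pat.z95 {T : Fin 10 → Fin 10 → K} (h : Pat T) : T 9 5 = 0 := h.zero 9 5 (by decide)
lemma Pat.z96 {T : Fin 10 → Fin 10 → K} (h : Pat T) : T 9 6 = 0 := h.zero 9 6 (by decide)
lemma Pat.z97 {T : Fin 10 → Fin 10 → K} (h : Pat T) : T 9 7 = 0 := h.zero 9 7 (by decide)

def tal (T : Fin 10 → Fin 10 → K) : Fin 3 → K := ![T 4 4, T 6 6, T 8 8]
def tbe (T : Fin 10 → Fin 10 → K) : Fin 3 → K := ![T 5 5, T 7 7, T 9 9]
def tga (T : Fin 10 → Fin 10 → K) : Fin 3 → K := ![T 4 5, T 6 7, T 8 9]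
def tmu (T : Fin 10 → Fin 10 → K) : Fin 3 → K := ![T 4 0, T 6 1, T 8 0]
def tnu (T : Fin 10 → Fin 10 → K) : Fin 3 → K := ![T 5 2, T 7 3, T 9 2]

def ia : Fin 3 → Fin 10 := ![4, 6, 8]
def ib : Fin 3 → Fin 10 := ![5, 7, 9]

lemma row_a {T : Fin 10 → Fin 10 → K} (hT : Pat T) (i : Fin 3) :
    th (T (ia i)) = ra (tal T) (tga T) (tmu T) i := by
  refine W_eq (Prod.ext ?_ ?_) (Prod.ext ?_ ?_) (funext fun j => ?_) (funext fun j => ?_)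
  · fin_cases i <;> simp [th, ra, ia, tmu, pt, hT.z02, hT.z03, hT.z05, hT.z06, hT.z07, hT.z09, hT.z12, hT.z13, hT.z14, hT.z15, hT.z17, hT.z19, hT.z20, hT.z21, hT.z24, hT.z26, hT.z27, hT.z28, hT.z30, hT.z31, hT.z34, hT.z35, hT.z36, hT.z38, hT.z41, hT.z42, hT.z43, hT.z46, hT.z47, hT.z48, hT.z49, hT.z50, hT.z51, hT.z53, hT.z56, hT.z57, hT.z58, hT.z59, hT.z60, hT.z62, hT.z63, hT.z64, hT.z65, hT.z68, hT.z69, hT.z70, hT.z71, hT.z72, hT.z74, hT.z75, hT.z78, hT.z79, hT.z82, hT.z83, hT.z84, hT.z85, hT.z86, hT.z87, hT.z90, hT.z91, hT.z94, hT.z95, hT.z96, hT.z97]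
  · fin_cases i <;> simp [th, ra, ia, tmu, pt, hT.z02, hT.z03, hT.z05, hT.z06, hT.z07, hT.z09, hT.z12, hT.z13, hT.z14, hT.z15, hT.z17, hT.z19, hT.z20, hT.z21, hT.z24, hT.z26, hT.z27, hT.z28, hT.z30, hT.z31, hT.z34, hT.z35, hT.z36, hT.z38, hT.z41, hT.z42, hT.z43, hT.z46, hT.z47, hT.z48, hT.z49, hT.z50, hT.z51, hT.z53, hT.z56, hT.z57, hT.z58, hT.z59, hT.z60, hT.z62, hT.z63, hT.z64, hT.z65, hT.z68, hT.z69, hT.z70, hT.z71, hT.z72, hT.z74, hT.z75, hT.z78, hT.z79, hT.z82, hT.z83, hT.z84, hT.z85, hT.z86, hT.z87, hT.z90, hT.z91, hT.z94, hT.z95, hT.z96, hT.z97, hT.t8]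
  · fin_cases i <;> simp [th, ra, ia, tmu, pt, hT.z02, hT.z03, hT.z05, hT.z06, hT.z07, hT.z09, hT.z12, hT.z13, hT.z14, hT.z15, hT.z17, hT.z19, hT.z20, hT.z21, hT.z24, hT.z26, hT.z27, hT.z28, hT.z30, hT.z31, hT.z34, hT.z35, hT.z36, hT.z38, hT.z41, hT.z42, hT.z43, hT.z46, hT.z47, hT.z48, hT.z49, hT.z50, hT.z51, hT.z53, hT.z56, hT.z57, hT.z58, hT.z59, hT.z60, hT.z62, hT.z63, hT.z64, hT.z65, hT.z68, hT.z69, hT.z70, hT.z71, hT.z72, hT.z74, hT.z75, hT.z78, hT.z79, hT.z82, hT.z83, hT.z84, hT.z85, hT.z86, hT.z87, hT.z90, hT.z91, hT.z94, hT.z95, hT.z96, hT.z97]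
  · fin_cases i <;> simp [th, ra, ia, tmu, pt, hT.z02, hT.z03, hT.z05, hT.z06, hT.z07, hT.z09, hT.z12, hT.z13, hT.z14, hT.z15, hT.z17, hT.z19, hT.z20, hT.z21, hT.z24, hT.z26, hT.z27, hT.z28, hT.z30, hT.z31, hT.z34, hT.z35, hT.z36, hT.z38, hT.z41, hT.z42, hT.z43, hT.z46, hT.z47, hT.z48, hT.z49, hT.z50, hT.z51, hT.z53, hT.z56, hT.z57, hT.z58, hT.z59, hT.z60, hT.z62, hT.z63, hT.z64, hT.z65, hT.z68, hT.z69, hT.z70, hT.z71, hT.z72, hT.z74, hT.z75, hT.z78, hT.z79, hT.z82, hT.z83, hT.z84, hT.z85, hT.z86, hT.z87, hT.z90, hT.z91, hT.z94, hT.z95, hT.z96, hT.z97]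
  · fin_cases i <;> fin_cases j <;> simp [th, ra, ia, tal, hT.z02, hT.z03, hT.z05, hT.z06, hT.z07, hT.z09, hT.z12, hT.z13, hT.z14, hT.z15, hT.z17, hT.z19, hT.z20, hT.z21, hT.z24, hT.z26, hT.z27, hT.z28, hT.z30, hT.z31, hT.z34, hT.z35, hT.z36, hT.z38, hT.z41, hT.z42, hT.z43, hT.z46, hT.z47, hT.z48, hT.z49, hT.z50, hT.z51, hT.z53, hT.z56, hT.z57, hT.z58, hT.z59, hT.z60, hT.z62, hT.z63, hT.z64, hT.z65, hT.z68, hT.z69, hT.z70, hT.z71, hT.z72, hT.z74, hT.z75, hT.z78, hT.z79, hT.z82, hT.z83, hT.z84, hT.z85, hT.z86, hT.z87, hT.z90, hT.z91, hT.z94, hT.z95, hT.z96, hT.z97]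
  · fin_cases i <;> fin_cases j <;> simp [th, ra, ia, tga, hT.z02, hT.z03, hT.z05, hT.z06, hT.z07, hT.z09, hT.z12, hT.z13, hT.z14, hT.z15, hT.z17, hT.z19, hT.z20, hT.z21, hT.z24, hT.z26, hT.z27, hT.z28, hT.z30, hT.z31, hT.z34, hT.z35, hT.z36, hT.z38, hT.z41, hT.z42, hT.z43, hT.z46, hT.z47, hT.z48, hT.z49, hT.z50, hT.z51, hT.z53, hT.z56, hT.z57, hT.z58, hT.z59, hT.z60, hT.z62, hT.z63, hT.z64, hT.z65, hT.z68, hT.z69, hT.z70, hT.z71, hT.z72, hT.z74, hT.z75, hT.z78, hT.z79, hT.z82, hT.z83, hT.z84, hT.z85, hT.z86, hT.z87, hT.z90, hT.z91, hT.z94, hT.z95, hT.z96, hT.z97]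

lemma row_b {T : Fin 10 → Fin 10 → K} (hT : Pat T) (i : Fin 3) :
    th (T (ib i)) = rb (tbe T) (tga T) (tnu T) i := by
  refine W_eq (Prod.ext ?_ ?_) (Prod.ext ?_ ?_) (funext fun j => ?_) (funext fun j => ?_)
  · fin_cases i <;> simp [th, rb, ib, tnu, pt, hT.z02, hT.z03, hT.z05, hT.z06, hT.z07, hT.z09, hT.z12, hT.z13, hT.z14, hT.z15, hT.z17, hT.z19, hT.z20, hT.z21, hT.z24, hT.z26, hT.z27, hT.z28, hT.z30, hT.z31, hT.z34, hT.z35, hT.z36, hT.z38, hT.z41, hT.z42, hT.z43, hT.z46, hT.z47, hT.z48, hT.z49, hT.z50, hT.z51, hT.z53, hT.z56, hT.z57, hT.z58, hT.z59, hT.z60, hT.z62, hT.z63, hT.z64, hT.z65, hT.z68, hT.z69, hT.z70, hT.z71, hT.z72, hT.z74, hT.z75, hT.z78, hT.z79, hT.z82, hT.z83, hT.z84, hT.z85, hT.z86, hT.z87, hT.z90, hT.z91, hT.z94, hT.z95, hT.z96, hT.z97]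
  · fin_cases i <;> simp [th, rb, ib, tnu, pt, hT.z02, hT.z03, hT.z05, hT.z06, hT.z07, hT.z09, hT.z12, hT.z13, hT.z14, hT.z15, hT.z17, hT.z19, hT.z20, hT.z21, hT.z24, hT.z26, hT.z27, hT.z28, hT.z30, hT.z31, hT.z34, hT.z35, hT.z36, hT.z38, hT.z41, hT.z42, hT.z43, hT.z46, hT.z47, hT.z48, hT.z49, hT.z50, hT.z51, hT.z53, hT.z56, hT.z57, hT.z58, hT.z59, hT.z60, hT.z62, hT.z63, hT.z64, hT.z65, hT.z68, hT.z69, hT.z70, hT.z71, hT.z72, hT.z74, hT.z75, hT.z78, hT.z79, hT.z82, hT.z83, hT.z84, hT.z85, hT.z86, hT.z87, hT.z90, hT.z91, hT.z94, hT.z95, hT.z96, hT.z97]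
  · fin_cases i <;> simp [th, rb, ib, tnu, pt, hT.z02, hT.z03, hT.z05, hT.z06, hT.z07, hT.z09, hT.z12, hT.z13, hT.z14, hT.z15, hT.z17, hT.z19, hT.z20, hT.z21, hT.z24, hT.z26, hT.z27, hT.z28, hT.z30, hT.z31, hT.z34, hT.z35, hT.z36, hT.z38, hT.z41, hT.z42, hT.z43, hT.z46, hT.z47, hT.z48, hT.z49, hT.z50, hT.z51, hT.z53, hT.z56, hT.z57, hT.z58, hT.z59, hT.z60, hT.z62, hT.z63, hT.z64, hT.z65, hT.z68, hT.z69, hT.z70, hT.z71, hT.z72, hT.z74, hT.z75, hT.z78, hT.z79, hT.z82, hT.z83, hT.z84, hT.z85, hT.z86, hT.z87, hT.z90, hT.z91, hT.z94, hT.z95, hT.z96, hT.z97]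
  · fin_cases i <;> simp [th, rb, ib, tnu, pt, hT.z02, hT.z03, hT.z05, hT.z06, hT.z07, hT.z09, hT.z12, hT.z13, hT.z14, hT.z15, hT.z17, hT.z19, hT.z20, hT.z21, hT.z24, hT.z26, hT.z27, hT.z28, hT.z30, hT.z31, hT.z34, hT.z35, hT.z36, hT.z38, hT.z41, hT.z42, hT.z43, hT.z46, hT.z47, hT.z48, hT.z49, hT.z50, hT.z51, hT.z53, hT.z56, hT.z57, hT.z58, hT.z59, hT.z60, hT.z62, hT.z63, hT.z64, hT.z65, hT.z68, hT.z69, hT.z70, hT.z71, hT.z72, hT.z74, hT.z75, hT.z78, hT.z79, hT.z82, hT.z83, hT.z84, hT.z85, hT.z86, hT.z87, hT.z90, hT.z91, hT.z94, hT.z95, hT.z96, hT.z97, hT.t9]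
  · fin_cases i <;> fin_cases j <;> simp [th, rb, ib, tga, hT.z02, hT.z03, hT.z05, hT.z06, hT.z07, hT.z09, hT.z12, hT.z13, hT.z14, hT.z15, hT.z17, hT.z19, hT.z20, hT.z21, hT.z24, hT.z26, hT.z27, hT.z28, hT.z30, hT.z31, hT.z34, hT.z35, hT.z36, hT.z38, hT.z41, hT.z42, hT.z43, hT.z46, hT.z47, hT.z48, hT.z49, hT.z50, hT.z51, hT.z53, hT.z56, hT.z57, hT.z58, hT.z59, hT.z60, hT.z62, hT.z63, hT.z64, hT.z65, hT.z68, hT.z69, hT.z70, hT.z71, hT.z72, hT.z74, hT.z75, hT.z78, hT.z79, hT.z82, hT.z83, hT.z84, hT.z85, hT.z86, hT.z87, hT.z90, hT.z91, hT.z94, hT.z95, hT.z96, hT.z97, hT.symm 5 4, hT.symm 7 6,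
      hT.symm 9 8]
  · fin_cases i <;> fin_cases j <;> simp [th, rb, ib, tbe, hT.z02, hT.z03, hT.z05, hT.z06, hT.z07, hT.z09, hT.z12, hT.z13, hT.z14, hT.z15, hT.z17, hT.z19, hT.z20, hT.z21, hT.z24, hT.z26, hT.z27, hT.z28, hT.z30, hT.z31, hT.z34, hT.z35, hT.z36, hT.z38, hT.z41, hT.z42, hT.z43, hT.z46, hT.z47, hT.z48, hT.z49, hT.z50, hT.z51, hT.z53, hT.z56, hT.z57, hT.z58, hT.z59, hT.z60, hT.z62, hT.z63, hT.z64, hT.z65, hT.z68, hT.z69, hT.z70, hT.z71, hT.z72, hT.z74, hT.z75, hT.z78, hT.z79, hT.z82, hT.z83, hT.z84, hT.z85, hT.z86, hT.z87, hT.z90, hT.z91, hT.z94, hT.z95, hT.z96, hT.z97]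

lemma row_1 {T : Fin 10 → Fin 10 → K} (hT : Pat T) (x : K × K) :
    th (x.1 • T 0 + x.2 • T 1) = k1 (tmu T) (T 0 0) (T 0 1) (T 1 1) x := by
  refine W_eq (Prod.ext ?_ ?_) (Prod.ext ?_ ?_) (funext fun j => ?_) (funext fun j => ?_)
  · simp [th, k1, bl, hT.symm 1 0]; ring
  · simp [th, k1, bl]; ring
  · simp [th, k1, hT.z02, hT.z03, hT.z05, hT.z06, hT.z07, hT.z09, hT.z12, hT.z13, hT.z14, hT.z15, hT.z17, hT.z19, hT.z20, hT.z21, hT.z24, hT.z26, hT.z27, hT.z28, hT.z30, hT.z31, hT.z34, hT.z35, hT.z36, hT.z38, hT.z41, hT.z42, hT.z43, hT.z46, hT.z47, hT.z48, hT.z49, hT.z50, hT.z51, hT.z53, hT.z56, hT.z57, hT.z58, hT.z59, hT.z60, hT.z62, hT.z63, hT.z64, hT.z65, hT.z68, hT.z69, hT.z70, hT.z71, hT.z72, hT.z74, hT.z75, hT.z78, hT.z79, hT.z82, hT.z83, hT.z84, hT.z85, hT.z86, hT.z87, hT.z90, hT.z91, hT.z94, hT.z95, hT.z96, hT.z97]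
  · simp [th, k1, hT.z02, hT.z03, hT.z05, hT.z06, hT.z07, hT.z09, hT.z12, hT.z13, hT.z14, hT.z15, hT.z17, hT.z19, hT.z20, hT.z21, hT.z24, hT.z26, hT.z27, hT.z28, hT.z30, hT.z31, hT.z34, hT.z35, hT.z36, hT.z38, hT.z41, hT.z42, hT.z43, hT.z46, hT.z47, hT.z48, hT.z49, hT.z50, hT.z51, hT.z53, hT.z56, hT.z57, hT.z58, hT.z59, hT.z60, hT.z62, hT.z63, hT.z64, hT.z65, hT.z68, hT.z69, hT.z70, hT.z71, hT.z72, hT.z74, hT.z75, hT.z78, hT.z79, hT.z82, hT.z83, hT.z84, hT.z85, hT.z86, hT.z87, hT.z90, hT.z91, hT.z94, hT.z95, hT.z96, hT.z97]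
  · fin_cases j <;> simp [th, k1, tmu, pt, pr, hT.z02, hT.z03, hT.z05, hT.z06, hT.z07, hT.z09, hT.z12, hT.z13, hT.z14, hT.z15, hT.z17, hT.z19, hT.z20, hT.z21, hT.z24, hT.z26, hT.z27, hT.z28, hT.z30, hT.z31, hT.z34, hT.z35, hT.z36, hT.z38, hT.z41, hT.z42, hT.z43, hT.z46, hT.z47, hT.z48, hT.z49, hT.z50, hT.z51, hT.z53, hT.z56, hT.z57, hT.z58, hT.z59, hT.z60, hT.z62, hT.z63, hT.z64, hT.z65, hT.z68, hT.z69, hT.z70, hT.z71, hT.z72, hT.z74, hT.z75, hT.z78, hT.z79, hT.z82, hT.z83, hT.z84, hT.z85, hT.z86, hT.z87, hT.z90, hT.z91, hT.z94, hT.z95, hT.z96, hT.z97, hT.symm 0 4, hT.symm 1 6, hT.symm 0 8,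
      hT.symm 1 8, ← hT.t8] <;> ring
  · fin_cases j <;> simp [th, k1, hT.z02, hT.z03, hT.z05, hT.z06, hT.z07, hT.z09, hT.z12, hT.z13, hT.z14, hT.z15, hT.z17, hT.z19, hT.z20, hT.z21, hT.z24, hT.z26, hT.z27, hT.z28, hT.z30, hT.z31, hT.z34, hT.z35, hT.z36, hT.z38, hT.z41, hT.z42, hT.z43, hT.z46, hT.z47, hT.z48, hT.z49, hT.z50, hT.z51, hT.z53, hT.z56, hT.z57, hT.z58, hT.z59, hT.z60, hT.z62, hT.z63, hT.z64, hT.z65, hT.z68, hT.z69, hT.z70, hT.z71, hT.z72, hT.z74, hT.z75, hT.z78, hT.z79, hT.z82, hT.z83, hT.z84, hT.z85, hT.z86, hT.z87, hT.z90, hT.z91, hT.z94, hT.z95, hT.z96, hT.z97]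

lemma row_2 {T : Fin 10 → Fin 10 → K} (hT : Pat T) (x : K × K) :
    th (x.1 • T 2 + x.2 • T 3) = k2 (tnu T) (T 2 2) (T 2 3) (T 3 3) x := by
  refine W_eq (Prod.ext ?_ ?_) (Prod.ext ?_ ?_) (funext fun j => ?_) (funext fun j => ?_)
  · simp [th, k2, hT.z02, hT.z03, hT.z05, hT.z06, hT.z07, hT.z09, hT.z12, hT.z13, hT.z14, hT.z15, hT.z17, hT.z19, hT.z20, hT.z21, hT.z24, hT.z26, hT.z27, hT.z28, hT.z30, hT.z31, hT.z34, hT.z35, hT.z36, hT.z38, hT.z41, hT.z42, hT.z43, hT.z46, hT.z47, hT.z48, hT.z49, hT.z50, hT.z51, hT.z53, hT.z56, hT.z57, hT.z58, hT.z59, hT.z60, hT.z62, hT.z63, hT.z64, hT.z65, hT.z68, hT.z69, hT.z70, hT.z71, hT.z72, hT.z74, hT.z75, hT.z78, hT.z79, hT.z82, hT.z83, hT.z84, hT.z85, hT.z86, hT.z87, hT.z90, hT.z91, hT.z94, hT.z95, hT.z96, hT.z97]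
  · simp [th, k2, hT.z02, hT.z03, hT.z05, hT.z06, hT.z07, hT.z09, hT.z12, hT.z13, hT.z14, hT.z15, hT.z17, hT.z19, hT.z20, hT.z21, hT.z24, hT.z26, hT.z27, hT.z28, hT.z30, hT.z31, hT.z34, hT.z35, hT.z36, hT.z38, hT.z41, hT.z42, hT.z43, hT.z46, hT.z47, hT.z48, hT.z49, hT.z50, hT.z51, hT.z53, hT.z56, hT.z57, hT.z58, hT.z59, hT.z60, hT.z62, hT.z63, hT.z64, hT.z65, hT.z68, hT.z69, hT.z70, hT.z71, hT.z72, hT.z74, hT.z75, hT.z78, hT.z79, hT.z82, hT.z83, hT.z84, hT.z85, hT.z86, hT.z87, hT.z90, hT.z91, hT.z94, hT.z95, hT.z96, hT.z97]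
  · simp [th, k2, bl, hT.symm 3 2]; ring
  · simp [th, k2, bl]; ring
  · fin_cases j <;> simp [th, k2, hT.z02, hT.z03, hT.z05, hT.z06, hT.z07, hT.z09, hT.z12, hT.z13, hT.z14, hT.z15, hT.z17, hT.z19, hT.z20, hT.z21, hT.z24, hT.z26, hT.z27, hT.z28, hT.z30, hT.z31, hT.z34, hT.z35, hT.z36, hT.z38, hT.z41, hT.z42, hT.z43, hT.z46, hT.z47, hT.z48, hT.z49, hT.z50, hT.z51, hT.z53, hT.z56, hT.z57, hT.z58, hT.z59, hT.z60, hT.z62, hT.z63, hT.z64, hT.z65, hT.z68, hT.z69, hT.z70, hT.z71, hT.z72, hT.z74, hT.z75, hT.z78, hT.z79, hT.z82, hT.z83, hT.z84, hT.z85, hT.z86, hT.z87, hT.z90, hT.z91, hT.z94, hT.z95, hT.z96, hT.z97]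
  · fin_cases j <;> simp [th, k2, tnu, pt, pr, hT.z02, hT.z03, hT.z05, hT.z06, hT.z07, hT.z09, hT.z12, hT.z13, hT.z14, hT.z15, hT.z17, hT.z19, hT.z20, hT.z21, hT.z24, hT.z26, hT.z27, hT.z28, hT.z30, hT.z31, hT.z34, hT.z35, hT.z36, hT.z38, hT.z41, hT.z42, hT.z43, hT.z46, hT.z47, hT.z48, hT.z49, hT.z50, hT.z51, hT.z53, hT.z56, hT.z57, hT.z58, hT.z59, hT.z60, hT.z62, hT.z63, hT.z64, hT.z65, hT.z68, hT.z69, hT.z70, hT.z71, hT.z72, hT.z74, hT.z75, hT.z78, hT.z79, hT.z82, hT.z83, hT.z84, hT.z85, hT.z86, hT.z87, hT.z90, hT.z91, hT.z94, hT.z95, hT.z96, hT.z97, hT.symm 2 5, hT.symm 3 7, hT.symm 2 9,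
      hT.symm 3 9, ← hT.t9] <;> ring

lemma im_eq {T : Fin 10 → Fin 10 → K} (hT : Pat T) (h : Fin 10 → K) :
    im (tal T) (tbe T) (tga T) (tmu T) (tnu T) (T 0 0) (T 0 1) (T 1 1) (T 2 2) (T 2 3) (T 3 3)
      (th h) = th (fun e' => ∑ e, h e * T e e') := by
  refine W_eq (Prod.ext ?_ ?_) (Prod.ext ?_ ?_) (funext fun j => ?_) (funext fun j => ?_)
  · simp [th, im, bl, sum10, Fin.sum_univ_three, tmu, pt, hT.symm 1 0, hT.z02, hT.z03, hT.z05, hT.z06, hT.z07, hT.z09, hT.z12, hT.z13, hT.z14, hT.z15, hT.z17, hT.z19, hT.z20, hT.z21, hT.z24, hT.z26, hT.z27, hT.z28, hT.z30, hT.z31, hT.z34, hT.z35, hT.z36, hT.z38, hT.z41, hT.z42, hT.z43, hT.z46, hT.z47, hT.z48, hT.z49, hT.z50, hT.z51, hT.z53, hT.z56, hT.z57, hT.z58, hT.z59, hT.z60, hT.z62, hT.z63, hT.z64, hT.z65, hT.z68, hT.z69, hT.z70, hT.z71, hT.z72, hT.z74, hT.z75, hT.z78, hT.z79,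 hT.z82, hT.z83, hT.z84, hT.z85, hT.z86, hT.z87, hT.z90, hT.z91, hT.z94, hT.z95, hT.z96, hT.z97]; ring
  · simp [th, im, bl, sum10, Fin.sum_univ_three, tmu, pt, ← hT.t8, hT.z02, hT.z03, hT.z05, hT.z06, hT.z07, hT.z09, hT.z12, hT.z13, hT.z14, hT.z15, hT.z17, hT.z19, hT.z20, hT.z21, hT.z24, hT.z26, hT.z27, hT.z28, hT.z30, hT.z31, hT.z34, hT.z35, hT.z36, hT.z38, hT.z41, hT.z42, hT.z43, hT.z46, hT.z47, hT.z48, hT.z49, hT.z50, hT.z51, hT.z53, hT.z56, hT.z57, hT.z58, hT.z59, hT.z60, hT.z62, hT.z63, hT.z64, hT.z65, hT.z68, hT.z69, hT.z70, hT.z71, hT.z72, hT.z74, hT.z75, hT.z78, hT.z79, hT.z82, hT.z83, hT.z84, hT.z85, hT.z86, hT.z87, hT.z90, hT.z91, hT.z94, hT.z95, hT.z96, hT.z97]; ring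
  · simp [th, im, bl, sum10, Fin.sum_univ_three, tnu, pt, hT.symm 3 2, hT.z02, hT.z03, hT.z05, hT.z06, hT.z07, hT.z09, hT.z12, hT.z13, hT.z14, hT.z15, hT.z17, hT.z19, hT.z20, hT.z21, hT.z24, hT.z26, hT.z27, hT.z28, hT.z30, hT.z31, hT.z34, hT.z35, hT.z36, hT.z38, hT.z41, hT.z42, hT.z43, hT.z46, hT.z47, hT.z48, hT.z49, hT.z50, hT.z51, hT.z53, hT.z56, hT.z57, hT.z58, hT.z59, hT.z60, hT.z62, hT.z63, hT.z64, hT.z65, hT.z68, hT.z69, hT.z70, hT.z71, hT.z72, hT.z74, hT.z75, hT.z78, hT.z79, hT.z82, hT.z83, hT.z84, hT.z85, hT.z86, hT.z87, hT.z90, hT.z91, hT.z94, hT.z95, hT.z96, hT.z97]; ring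
  · simp [th, im, bl, sum10, Fin.sum_univ_three, tnu, pt, ← hT.t9, hT.z02, hT.z03, hT.z05, hT.z06, hT.z07, hT.z09, hT.z12, hT.z13, hT.z14, hT.z15, hT.z17, hT.z19, hT.z20, hT.z21, hT.z24, hT.z26, hT.z27, hT.z28, hT.z30, hT.z31, hT.z34, hT.z35, hT.z36, hT.z38, hT.z41, hT.z42, hT.z43, hT.z46, hT.z47, hT.z48, hT.z49, hT.z50, hT.z51, hT.z53, hT.z56, hT.z57, hT.z58, hT.z59, hT.z60, hT.z62, hT.z63, hT.z64, hT.z65, hT.z68, hT.z69, hT.z70, hT.z71, hT.z72, hT.z74, hT.z75, hT.z78, hT.z79, hT.z82, hT.z83, hT.z84, hT.z85, hT.z86, hT.z87, hT.z90, hT.z91, hT.z94, hT.z95, hT.z96, hT.z97]; ring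
  · fin_cases j <;> simp [th, im, tmu, tal, tga, pt, pr, sum10, hT.symm 0 4, hT.symm 1 6,
      hT.symm 0 8, hT.symm 1 8, ← hT.t8, hT.symm 5 4, hT.symm 7 6, hT.symm 9 8, hT.z02, hT.z03, hT.z05, hT.z06, hT.z07, hT.z09, hT.z12, hT.z13, hT.z14, hT.z15, hT.z17, hT.z19, hT.z20, hT.z21, hT.z24, hT.z26, hT.z27, hT.z28, hT.z30, hT.z31, hT.z34, hT.z35, hT.z36, hT.z38, hT.z41, hT.z42, hT.z43, hT.z46, hT.z47, hT.z48, hT.z49, hT.z50, hT.z51, hT.z53, hT.z56, hT.z57, hT.z58, hT.z59, hT.z60, hT.z62, hT.z63, hT.z64, hT.z65, hT.z68, hT.z69, hT.z70, hT.z71, hT.z72, hT.z74, hT.z75, hT.z78, hT.z79, hT.z82, hT.z83, hT.z84, hT.z85, hT.z86, hT.z87, hT.z90, hT.z91, hT.z94, hT.z95, hT.z96, hT.z97] <;> ring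
  · fin_cases j <;> simp [th, im, tnu, tbe, tga, pt, pr, sum10, hT.symm 2 5, hT.symm 3 7,
      hT.symm 2 9, hT.symm 3 9, ← hT.t9, hT.z02, hT.z03, hT.z05, hT.z06, hT.z07, hT.z09, hT.z12, hT.z13, hT.z14, hT.z15, hT.z17, hT.z19, hT.z20, hT.z21, hT.z24, hT.z26, hT.z27, hT.z28, hT.z30, hT.z31, hT.z34, hT.z35, hT.z36, hT.z38, hT.z41, hT.z42, hT.z43, hT.z46, hT.z47, hT.z48, hT.z49, hT.z50, hT.z51, hT.z53, hT.z56, hT.z57, hT.z58, hT.z59, hT.z60, hT.z62, hT.z63, hT.z64, hT.z65, hT.z68, hT.z69, hT.z70, hT.z71, hT.z72, hT.z74, hT.z75, hT.z78, hT.z79, hT.z82, hT.z83, hT.z84, hT.z85, hT.z86, hT.z87, hT.z90, hT.z91, hT.z94, hT.z95, hT.z96, hT.z97] <;> ring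

end Pool.Agent.N608.SG
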