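import Pool.Agent.N608.SG.Pat

/-!
The two linear algebra lemmas in terms of the matrix on the ten labels.
-/

set_option autoImplicit false
set_option linter.unusedSimpArgs false
set_option linter.unusedSectionVars false

namespace Pool.Agent.N608.SG

open MvPolynomial

universe u

variable {K : Type u} [Field K]

lemma mem_th {U : Submodule K (Fin 10 → K)} {w : W K} :
    w ∈ U.map (th : (Fin 10 → K) ≃ₗ[K] W K).toLinearMap ↔ th.symm w ∈ U :=
  Submodule.mem_map_equiv _

lemma finrank_th {U : Submodule K (Fin 10 → K)} (hU : Module.finrank K U = 4) :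
    Module.finrank K (U.map (th : (Fin 10 → K) ≃ₗ[K] W K).toLinearMap) = 4 := by
  rw [← hU]
  exact LinearEquiv.finrank_map_eq th U

section

variable {U : Submodule K (Fin 10 → K)} {T : Fin 10 → Fin 10 → K} (hT : Pat T)
  (hrow : ∀ e, T e ∈ U)

include hT hrow

lemma mem_a (i : Fin 3) : ra (tal T) (tga T) (tmu T) i ∈
    U.map (th : (Fin 10 → K) ≃ₗ[K] W K).toLinearMap := by
  rw [← row_a hT]
  exact Submodule.mem_map_of_mem (hrow _)

lemma mem_b (i : Fin 3) : rb (tbe T) (tga T) (tnu T) i ∈
    U.map (th : (Fin 10 → K) ≃ₗ[K] W K).toLinearMap := by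
  rw [← row_b hT]
  exact Submodule.mem_map_of_mem (hrow _)

lemma mem_1 (x : K × K) : k1 (tmu T) (T 0 0) (T 0 1) (T 1 1) x ∈
    U.map (th : (Fin 10 → K) ≃ₗ[K] W K).toLinearMap := by
  rw [← row_1 hT]
  exact Submodule.mem_map_of_mem (U.add_mem (U.smul_mem _ (hrow _)) (U.smul_mem _ (hrow _)))

lemma mem_2 (x : K × K) : k2 (tnu T) (T 2 2) (T 2 3) (T 3 3) x ∈
    U.map (th : (Fin 10 → K) ≃ₗ[K] W K).toLinearMap := by
  rw [← row_2 hT]
  exact Submodule.mem_map_of_mem (U.add_mem (U.smul_mem _ (hrow _)) (U.smul_mem _ (hrow _)))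

theorem pat1 (hU : Module.finrank K U = 4) (h : Fin 10 → K) {w : Fin 10 → K}
    (hw : w = fun e' => ∑ e, h e * T e e')
    (hne : w 4 * w 5 * w 6 * w 7 * w 8 * w 9 * (w 0 * w 3 - w 1 * w 2) ≠ 0) : False := by
  have hwU : w ∈ U := by
    have : w = ∑ e, h e • T e := by
      rw [hw]
      funext e'
      rw [Finset.sum_apply]
      rfl
    rw [this]
    exact Submodule.sum_mem _ fun e _ => U.smul_mem _ (hrow e)
  have him := im_eq hT h
  rw [← hw] at him
  obtain ⟨n1, hdet⟩ := mul_ne_zero_iff.1 hne
  obtain ⟨n2, w9⟩ := mul_ne_zero_iff.1 n1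
  obtain ⟨n3, w8⟩ := mul_ne_zero_iff.1 n2
  obtain ⟨n4, w7⟩ := mul_ne_zero_iff.1 n3
  obtain ⟨n5, w6⟩ := mul_ne_zero_iff.1 n4
  obtain ⟨w4, w5⟩ := mul_ne_zero_iff.1 n5
  refine ml1 (U.map (th : (Fin 10 → K) ≃ₗ[K] W K).toLinearMap) (finrank_th hU) (mem_a hT hrow)
    (mem_b hT hrow) (mem_1 hT hrow) (mem_2 hT hrow) (th h) ?_ ?_ ?_ ?_
  · rw [him]
    exact Submodule.mem_map_of_mem hwU
  · rw [him]
    intro i
    fin_cases i
    · exact w4
    · exact w6
    · exact w8
  · rw [him]
    intro i
    fin_cases i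
    · exact w5
    · exact w7
    · exact w9
  · rw [him]
    exact hdet

theorem pat2 (hU : Module.finrank K U = 4) (h : Fin 10 → K)
    (hX : ∀ z ∈ U, z ∈ curve K TG tlab → z ≠ 0 → ∑ i, h i * z i ≠ 0)
    (hw : ∀ e', ∑ e, h e * T e e' = 0) : ∀ e, T e = 0 := by
  have him := im_eq hT h
  have hw' : (fun e' => ∑ e, h e * T e e') = 0 := funext hw
  rw [hw', map_zero] at him
  have key : ∀ w : W K, w ∈ U.map (th : (Fin 10 → K) ≃ₗ[K] W K).toLinearMap →
      (th : (Fin 10 → K) ≃ₗ[K] W K).symm w ∈ curve K TG tlab →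
      ∑ i, h i * (th : (Fin 10 → K) ≃ₗ[K] W K).symm w i = 0 → w = 0 := by
    intro w h1 h2 h3
    by_contra hne
    refine hX _ (mem_th.1 h1) h2 ?_ h3
    intro h0
    apply hne
    have := congrArg (th : (Fin 10 → K) ≃ₗ[K] W K) h0
    rwa [LinearEquiv.apply_symm_apply, map_zero] at this
  have Hla : ∀ x : K × K, ((x, 0, 0, 0) : W K) ∈ (U.map (th : (Fin 10 → K) ≃ₗ[K] W K).toLinearMap) →
      pr (th h).1 x = 0 → x = 0 := by
    intro x hx hp
    have := key _ hx (by
      rw [mem_curve]
      refine ⟨0, ?_, fun h => absurd h (by decide), fun h => absurd h (by decide)⟩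
      intro i hi
      fin_cases i <;> first | rfl | exact absurd hi (by decide)) (by
      rw [← hp, sum10]
      simp [th, pr])
    exact congrArg Prod.fst this
  have Hlb : ∀ x : K × K, ((0, x, 0, 0) : W K) ∈ (U.map (th : (Fin 10 → K) ≃ₗ[K] W K).toLinearMap) →
      pr (th h).2.1 x = 0 → x = 0 := by
    intro x hx hp
    have := key _ hx (by
      rw [mem_curve]
      refine ⟨1, ?_, fun h => absurd h (by decide), fun h => absurd h (by decide)⟩
      intro i hi
      fin_cases i <;> first | rfl | exact absurd hi (by decide)) (by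
      rw [← hp, sum10]
      simp [th, pr])
    exact congrArg (fun w : W K => w.2.1) this
  have Hw1 : ∀ i s t, ((s • pt K i, 0, Pi.single i t, 0) : W K) ∈ (U.map (th : (Fin 10 → K) ≃ₗ[K] W K).toLinearMap) →
      s * pr (th h).1 (pt K i) + t * (th h).2.2.1 i = 0 → s = 0 ∧ t = 0 := by
    intro i s t hx hp
    have hm : (th : (Fin 10 → K) ≃ₗ[K] W K).symm
        ((s • pt K i, 0, Pi.single i t, 0) : W K) ∈ curve K TG tlab := by
      rw [mem_curve]
      fin_cases i
      · refine ⟨2, ?_, fun h => absurd h (by decide), fun h => absurd h (by decide)⟩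
        intro i hi
        fin_cases i <;> first | exact absurd hi (by decide) | simp [th, pt]
      · refine ⟨5, ?_, fun h => absurd h (by decide), fun h => absurd h (by decide)⟩
        intro i hi
        fin_cases i <;> first | exact absurd hi (by decide) | simp [th, pt]
      · refine ⟨8, ?_, ?_, fun h => absurd h (by decide)⟩
        · intro i hi
          fin_cases i <;> first | exact absurd hi (by decide) | simp [th, pt]
        · intro _
          simp [th, pt]
    have := key _ hx hm (by
      rw [← hp, sum10]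
      fin_cases i <;> simp [th, pr, pt] <;> ring)
    obtain ⟨e1, e2, e3, e4⟩ := comps this
    refine ⟨(smul_eq_zero.1 e1).resolve_right (pt_ne i), ?_⟩
    have := e3 i
    simpa using this
  have Hw2 : ∀ i s t, ((0, 0, Pi.single i s, Pi.single i t) : W K) ∈ (U.map (th : (Fin 10 → K) ≃ₗ[K] W K).toLinearMap) →
      s * (th h).2.2.1 i + t * (th h).2.2.2 i = 0 → s = 0 ∧ t = 0 := by
    intro i s t hx hp
    have hm : (th : (Fin 10 → K) ≃ₗ[K] W K).symm
        ((0, 0, Pi.single i s, Pi.single i t) : W K) ∈ curve K TG tlab := by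
      rw [mem_curve]
      fin_cases i
      · refine ⟨3, ?_, fun h => absurd h (by decide), fun h => absurd h (by decide)⟩
        intro i hi
        fin_cases i <;> first | exact absurd hi (by decide) | simp [th, pt]
      · refine ⟨6, ?_, fun h => absurd h (by decide), fun h => absurd h (by decide)⟩
        intro i hi
        fin_cases i <;> first | exact absurd hi (by decide) | simp [th, pt]
      · refine ⟨9, ?_, fun h => absurd h (by decide), fun h => absurd h (by decide)⟩
        intro i hi
        fin_cases i <;> first | exact absurd hi (by decide) | simp [th, pt]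
    have := key _ hx hm (by
      rw [← hp, sum10]
      fin_cases i <;> simp [th, pr, pt] <;> ring)
    obtain ⟨e1, e2, e3, e4⟩ := comps this
    have e5 := e3 i
    have e6 := e4 i
    constructor
    · simpa using e5
    · simpa using e6
  have Hw3 : ∀ i s t, ((0, s • pt K i, 0, Pi.single i t) : W K) ∈ (U.map (th : (Fin 10 → K) ≃ₗ[K] W K).toLinearMap) →
      s * pr (th h).2.1 (pt K i) + t * (th h).2.2.2 i = 0 → s = 0 ∧ t = 0 := by
    intro i s t hx hp
    have hm : (th : (Fin 10 → K) ≃ₗ[K] W K).symm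
        ((0, s • pt K i, 0, Pi.single i t) : W K) ∈ curve K TG tlab := by
      rw [mem_curve]
      fin_cases i
      · refine ⟨4, ?_, fun h => absurd h (by decide), fun h => absurd h (by decide)⟩
        intro i hi
        fin_cases i <;> first | exact absurd hi (by decide) | simp [th, pt]
      · refine ⟨7, ?_, fun h => absurd h (by decide), fun h => absurd h (by decide)⟩
        intro i hi
        fin_cases i <;> first | exact absurd hi (by decide) | simp [th, pt]
      · refine ⟨10, ?_, fun h => absurd h (by decide), ?_⟩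
        · intro i hi
          fin_cases i <;> first | exact absurd hi (by decide) | simp [th, pt]
        · intro _
          simp [th, pt]
    have := key _ hx hm (by
      rw [← hp, sum10]
      fin_cases i <;> simp [th, pr, pt] <;> ring)
    obtain ⟨e1, e2, e3, e4⟩ := comps this
    refine ⟨(smul_eq_zero.1 e2).resolve_right (pt_ne i), ?_⟩
    have := e4 i
    simpa using this
  obtain ⟨hall, hA, hD⟩ := ml2 (U.map (th : (Fin 10 → K) ≃ₗ[K] W K).toLinearMap) (finrank_th hU)
    (mem_a hT hrow) (mem_b hT hrow) (mem_1 hT hrow) (mem_2 hT hrow) (th h) him Hla Hlb Hw1 Hw2 Hw3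
  have ea : tal T = 0 := funext fun i => (hall i).1
  have eb : tbe T = 0 := funext fun i => (hall i).2.1
  have eg : tga T = 0 := funext fun i => (hall i).2.2.1
  have em : tmu T = 0 := funext fun i => (hall i).2.2.2.1
  have en : tnu T = 0 := funext fun i => (hall i).2.2.2.2
  have fa : ∀ i, T (ia i) = 0 := by
    intro i
    apply (th : (Fin 10 → K) ≃ₗ[K] W K).injective
    rw [row_a hT, ea, eg, em, map_zero]
    simp [ra]
  have fb : ∀ i, T (ib i) = 0 := by
    intro i
    apply (th : (Fin 10 → K) ≃ₗ[K] W K).injective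
    rw [row_b hT, eb, eg, en, map_zero]
    simp [rb]
  have f1 : ∀ x : K × K, x.1 • T 0 + x.2 • T 1 = 0 := by
    intro x
    apply (th : (Fin 10 → K) ≃ₗ[K] W K).injective
    rw [row_1 hT, em, map_zero, hA.1, hA.2.1, hA.2.2]
    simp [k1, bl]
    try rfl
  have f2 : ∀ x : K × K, x.1 • T 2 + x.2 • T 3 = 0 := by
    intro x
    apply (th : (Fin 10 → K) ≃ₗ[K] W K).injective
    rw [row_2 hT, en, map_zero, hD.1, hD.2.1, hD.2.2]
    simp [k2, bl]
    try rfl
  have g0 := f1 (1, 0)
  have g1 := f1 (0, 1)
  have g2 := f2 (1, 0)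
  have g3 := f2 (0, 1)
  simp only [one_smul, zero_smul, add_zero, zero_add] at g0 g1 g2 g3
  intro e
  fin_cases e
  · exact g0
  · exact g1
  · exact g2
  · exact g3
  · exact fa 0
  · exact fb 0
  · exact fa 1
  · exact fb 1
  · exact fa 2
  · exact fb 2

end

end Pool.Agent.N608.SG
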